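import Pool.Agent.LSQ.NRG

/-!
# LSQ, module NRI: the ideals of the triple may be generated by invariant functions

The ideals `a_j` are replaced by the norm ideals `N(a_j)` and the exponents `r_j` by `r_j / |H|`.
-/

set_option autoImplicit false

namespace LSQ

open MldGeo NDQ UNC

noncomputable section

namespace NRI

open NRG

variable {n : ℕ} {X : Germ n}

theorem exists_gens {m : ℕ} (A : MldG.TorusAction X m) {I : Ideal X.R} (hI : A.Inv I) :
    ∃ (k : ℕ) (g : Fin k → X.R) (u : Fin k → Fin m → ℤ), (∀ j, g j ∈ A.gr (u j)) ∧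
      I = Ideal.span (Set.range g) := by
  obtain ⟨s, hs, rfl⟩ := hI
  have hX : Algebra.FiniteType ℂ X.R := (Subalgebra.fg_iff_finiteType X.R).1 X.fg
  have hN : IsNoetherianRing X.R := Algebra.FiniteType.isNoetherianRing ℂ X.R
  obtain ⟨s', h1, h2⟩ := (Submodule.fg_span_iff_fg_span_finset_subset s).1
    (IsNoetherian.noetherian (Submodule.span X.R s))
  refine ⟨s'.card, fun j => (s'.equivFin.symm j : X.R),
    fun j => (hs _ (h1 (s'.equivFin.symm j).2)).choose,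
    fun j => (hs _ (h1 (s'.equivFin.symm j).2)).choose_spec, ?_⟩
  have h3 : Set.range (fun j => ((s'.equivFin.symm j : s') : X.R)) = (s' : Set X.R) := by
    ext a
    constructor
    · rintro ⟨j, rfl⟩
      exact (s'.equivFin.symm j).2
    · intro ha
      exact ⟨s'.equivFin ⟨a, ha⟩, by simp⟩
  rw [h3]
  exact h2

/-- The norm ideal of one ideal. -/
theorem norm_ideal {m : ℕ} (A : MldG.TorusAction X m) (H : Subgroup (X.K ≃ₐ[ℂ] X.K)) [Fintype H]
    (hR : ∀ h ∈ H, ∀ a ∈ X.R, h a ∈ X.R) (hc : ∀ h ∈ H, Comm A h) {I : Ideal X.R} (hI : A.Inv I)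
    (h0 : I ≠ ⊥) : ∃ N : Ideal X.R, N ≠ ⊥ ∧ A.Inv N ∧
      (∃ s : Set X.R, (∀ a ∈ s, ∀ h ∈ H, h (a : X.K) = a) ∧ N = Ideal.span s) ∧
      ∀ w : DivVal n X.K, (∀ a : X.R, 0 ≤ w.ord a) →
        idealOrd w N = ∑ h : H, idealOrd (MldG.comap (h : X.K ≃ₐ[ℂ] X.K) w) I := by
  classical
  obtain ⟨k, g, u, hu, rfl⟩ := exists_gens A hI
  by_cases hw : ∃ w : DivVal n X.K, ∀ a : X.R, 0 ≤ w.ord a
  · obtain ⟨w, hw⟩ := hw
    refine ⟨NI H hR g, (idealOrd_NI H hR g hw h0).1, inv_NI H hR g A hc u hu,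
      ⟨Set.range (sc H hR g), ?_, rfl⟩, fun w hw => (idealOrd_NI H hR g hw h0).2⟩
    rintro _ ⟨α, rfl⟩ h hh
    exact congrArg Subtype.val (ac_sc H hR g ⟨h, hh⟩ α)
  · refine ⟨⊤, top_ne_bot, ⟨{1}, ?_, (Ideal.span_singleton_one).symm⟩,
      ⟨{1}, ?_, (Ideal.span_singleton_one).symm⟩, fun w h => (hw ⟨w, h⟩).elim⟩
    · rintro a rfl
      have := A.graded
      exact ⟨0, SetLike.GradedOne.one_mem⟩
    · rintro a rfl h _
      exact map_one h

end NRI

open NRI NRG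

theorem over_comap {n : ℕ} {X Y : Germ n} {G : Subgroup (X.K ≃ₐ[ℂ] X.K)} {π : Y.K →ₐ[ℂ] X.K}
    (hQ : IsQuot X Y G π) {w : DivVal n X.K} {v : DivVal n Y.K} {e : ℕ} (ho : Over π w v e)
    {h : X.K ≃ₐ[ℂ] X.K} (hh : h ∈ G) : Over π (MldG.comap h w) v e := by
  refine ⟨ho.1, fun b => ?_⟩
  change w.ord (h (π b)) = _
  rw [(hQ.inv (π b)).1 ⟨b, rfl⟩ h hh]
  exact ho.2 b

theorem through_comap {n : ℕ} {X Y : Germ n} {G : Subgroup (X.K ≃ₐ[ℂ] X.K)} {π : Y.K →ₐ[ℂ] X.K}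
    (hQ : IsQuot X Y G π) {w : DivVal n X.K} (hw : X.Through w) {h : X.K ≃ₐ[ℂ] X.K} (hh : h ∈ G) :
    X.Through (MldG.comap h w) := by
  refine ⟨fun a => hw.1 ⟨h a, hQ.map_R h hh a a.2⟩, fun a ha => ?_⟩
  refine hw.2 ⟨h a, hQ.map_R h hh a a.2⟩ fun h1 => ha ?_
  refine hQ.map_m h⁻¹ (G.inv_mem hh) ⟨h a, hQ.map_R h hh a a.2⟩ a ?_ h1
  change (a : X.K) = h.symm (h a)
  rw [AlgEquiv.symm_apply_apply]

/-- **NRI**: the ideals may be generated by invariant functions. -/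
theorem t_NRI (hQG : Stmt_QGAL) {n m : ℕ} {X Y : Germ n}
    (G : Subgroup (X.K ≃ₐ[ℂ] X.K)) (π : Y.K →ₐ[ℂ] X.K) (T : Triple X) (T' : Triple Y)
    (hn : 0 < n) (hQ : IsQuot X Y G π) (hC : Crepant π T T') (hLC : T.LC) (hE : T.Effective)
    (H : Subgroup (X.K ≃ₐ[ℂ] X.K)) (hH : H ≤ G) (A : MldG.TorusAction X m)
    (hA : A.InvTriple T) (hc : ∀ h ∈ H, Comm A h) :
    ∃ T1 : Triple X, A.InvTriple T1 ∧ InvGen T1 H ∧ Crepant π T1 T' ∧ T1.LC ∧ T1.Effective ∧
      (∀ w, T1.logDisc w = T.logDisc w) ∧ (∀ w, X.Through w → T1.disc w = T.disc w) ∧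
      ∀ (w : DivVal n X.K) (v : DivVal n Y.K) (e : ℕ), (∀ a : X.R, 0 ≤ w.ord a) → Over π w v e →
        (∀ h ∈ H, ∑ j, T.r j * idealOrd (MldG.comap h w) (T.a j) =
          e * ∑ i, T'.r i * idealOrd v (T'.a i)) →
        ∑ j, T1.r j * idealOrd w (T1.a j) = e * ∑ i, T'.r i * idealOrd v (T'.a i) := by
  classical
  have hfG : Finite G := hQ.finite
  have hfin : Finite H := Finite.of_injective (Subgroup.inclusion hH)
    (Subgroup.inclusion_injective hH)
  let _ : Fintype H := Fintype.ofFinite H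
  have hR : ∀ h ∈ H, ∀ a ∈ X.R, h a ∈ X.R := fun h hh => hQ.map_R h (hH hh)
  choose N hN0 hNA hNI hNw using fun j => norm_ideal A H hR hc (hA.2 j) (T.a_ne j)
  have hcard : (0 : ℝ) < Fintype.card H := by
    exact_mod_cast Fintype.card_pos
  let T1 : Triple X :=
    { ω := T.ω
      ω_ne := T.ω_ne
      I := T.I
      finI := T.finI
      f := T.f
      f_ne := T.f_ne
      c := T.c
      J := T.J
      finJ := T.finJ
      a := N
      a_ne := hN0
      r := fun j => T.r j / Fintype.card H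
      r_nonneg := fun j => div_nonneg (T.r_nonneg j) hcard.le }
  have hlog : ∀ w, T1.logDisc w = T.logDisc w := fun _ => rfl
  have hid : ∀ w : DivVal n X.K, (∀ a : X.R, 0 ≤ w.ord a) →
      ∑ j, T1.r j * idealOrd w (T1.a j) =
        (∑ h : H, ∑ j, T.r j * idealOrd (MldG.comap (h : X.K ≃ₐ[ℂ] X.K) w) (T.a j)) /
          Fintype.card H := by
    intro w hw
    rw [Finset.sum_comm, Finset.sum_div]
    refine Finset.sum_congr rfl fun j _ => ?_
    change T.r j / Fintype.card H * (idealOrd w (N j) : ℝ) = _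
    rw [hNw j w hw, ← Finset.mul_sum]
    push_cast
    ring
  have hrel : ∀ (w : DivVal n X.K) (v : DivVal n Y.K) (e : ℕ), (∀ a : X.R, 0 ≤ w.ord a) →
      Over π w v e → (∀ h ∈ H, ∑ j, T.r j * idealOrd (MldG.comap h w) (T.a j) =
          e * ∑ i, T'.r i * idealOrd v (T'.a i)) →
        ∑ j, T1.r j * idealOrd w (T1.a j) = e * ∑ i, T'.r i * idealOrd v (T'.a i) := by
    intro w v e hw _ h1
    rw [hid w hw, Finset.sum_congr rfl fun (h : H) _ => h1 h h.2, Finset.sum_const,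
      Finset.card_univ, nsmul_eq_mul, mul_div_cancel_left₀ _ hcard.ne']
  have hthr : ∀ (w : DivVal n X.K) (v : DivVal n Y.K) (e : ℕ), X.Through w → Over π w v e →
      ∑ j, T1.r j * idealOrd w (T1.a j) = e * ∑ i, T'.r i * idealOrd v (T'.a i) := by
    intro w v e hw ho
    exact hrel w v e hw.1 ho fun h hh =>
      hC.ideals _ v e (through_comap hQ hw (hH hh)) (over_comap hQ ho (hH hh))
  have hdisc : ∀ w, X.Through w → T1.disc w = T.disc w := by
    intro w hw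
    obtain ⟨v, e, ho⟩ := (hQG X Y G π hn hQ).1 w
    unfold Triple.disc
    rw [hlog, hthr w v e hw ho, hC.ideals w v e hw ho]
  refine ⟨T1, ⟨fun P b hb => hA.1 P b hb, hNA⟩, hNI, ⟨fun w v e Q h1 h2 h3 => ?_, hthr⟩,
    fun w hw => ?_, fun P b hb => hE P b hb, hlog, hdisc, hrel⟩
  · rw [hlog]
    exact hC.div w v e Q h1 h2 h3
  · rw [hdisc w hw]
    exact hLC w hw

end

end LSQ
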