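import Pool.Agent.LSQ.MainQ
import Pool.Agent.LSCM.StN
import Pool.Agent.UNC.THT
import Pool.Agent.UNC.TRI
import Pool.Agent.MldGeo.PULQ

/-!
# LSQ: lower semicontinuity near `y` for quotients by finite groups
-/

set_option autoImplicit false

namespace LSQ

open MldGeo NDQ LSCM UNC

noncomputable section

variable {n : ℕ} {X Y Z : Germ n}

/-- Valuations over valuations with a centre have a centre. -/
theorem nonneg_up {G : Subgroup (X.K ≃ₐ[ℂ] X.K)} {π : Y.K →ₐ[ℂ] X.K} (hq : IsQuot X Y G π)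
    {w : DivVal n X.K} {v : DivVal n Y.K} {e : ℕ} (ho : Over π w v e)
    (h1 : ∀ b : Y.R, 0 ≤ v.ord b) (a : X.R) : 0 ≤ w.ord a := by
  have hfin := hq.finite
  have hft : Fintype G := Fintype.ofFinite G
  have he' : (0 : ℤ) < e := by exact_mod_cast ho.1
  by_cases ha : (a : X.K) = 0
  · rw [ha, w.ord_zero]
  refine QAT.bound w ha (fun k => ((QAT.chp X G hq.map_R a).coeff k : X.K))
    (QAT.chp_root X G hq.map_R a) fun k _ => ?_
  obtain ⟨b, hb⟩ := (hq.inv _).2 fun g hg => QAT.chp_coeff_fixed X G hq.map_R a k g hg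
  have hbR : b ∈ Y.R := by
    rw [hq.mem_R, hb]
    exact ((QAT.chp X G hq.map_R a).coeff k).2
  have hb' : ((QAT.chp X G hq.map_R a).coeff k : X.K) = π b := hb.symm
  rw [hb']
  refine DivVal.Ge.of_le ?_
  rw [ho.2]
  exact mul_nonneg he'.le (h1 ⟨b, hbR⟩)

/-- Neighbourhoods of `x` contain preimages of neighbourhoods of `y`. -/
theorem norm_near {G : Subgroup (X.K ≃ₐ[ℂ] X.K)} {π : Y.K →ₐ[ℂ] X.K} (hq : IsQuot X Y G π)
    (F : X.R) (hF : F ∉ X.m) : ∃ f : Y.R, f ∉ Y.m ∧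
      ∀ (w : DivVal n X.K) (v : DivVal n Y.K) (e : ℕ), Over π w v e → Near Y f v → Near X F w := by
  have hfin := hq.finite
  have hft : Fintype G := Fintype.ofFinite G
  obtain ⟨b, hb⟩ := (hq.inv _).2 fun g hg => THT_aux.nrm_fixed X G hq.map_R F g hg
  have hbR : b ∈ Y.R := by
    rw [hq.mem_R, hb]
    exact (THT_aux.nrm X G hq.map_R F).2
  refine ⟨⟨b, hbR⟩, ?_, ?_⟩
  · intro h
    exact THT_aux.nrm_not_mem X G hq.map_R hq.map_m F hF
      ((hq.mem_m ⟨b, hbR⟩ (THT_aux.nrm X G hq.map_R F) hb.symm).1 h)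
  · rintro w v e ho ⟨h1, h2⟩
    have hnn := nonneg_up hq ho h1
    refine ⟨hnn, ?_⟩
    have ha0 : (F : X.K) ≠ 0 := by
      intro h
      apply hF
      have h' : F = 0 := Subtype.ext h
      rw [h']
      exact X.m.zero_mem
    have h3 : w.ord (THT_aux.nrm X G hq.map_R F : X.K) = 0 := by
      rw [← hb, ho.2]
      change v.ord b = 0 at h2
      rw [h2, mul_zero]
    rw [THT_aux.nrm_coe, DivVal.ord_prod] at h3
    swap
    · intro g _ h
      apply ha0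
      exact (map_eq_zero_iff _ (g : X.K ≃ₐ[ℂ] X.K).injective).1 h
    have h4 : ∀ g ∈ (Finset.univ : Finset G), 0 ≤ w.ord ((g : X.K ≃ₐ[ℂ] X.K) (F : X.K)) :=
      fun g _ => hnn ⟨(g : X.K ≃ₐ[ℂ] X.K) F, hq.map_R g g.2 F F.2⟩
    have h5 := (Finset.sum_eq_zero_iff_of_nonneg h4).1 h3 (1 : G) (Finset.mem_univ _)
    exact h5

/-- The order of an ideal which is generated by invariant functions. -/
theorem tri_near {H : Subgroup (X.K ≃ₐ[ℂ] X.K)} {ι : Z.K →ₐ[ℂ] X.K} (hq : IsQuot X Z H ι)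
    {I : Ideal X.R} {s : Set X.R} (hs : ∀ a ∈ s, ∀ h ∈ H, h (a : X.K) = a)
    (hI : I = Ideal.span s) (hI0 : I ≠ ⊥) {I' : Ideal Z.R} (hI' : Contr ι I I')
    {w : DivVal n X.K} {z : DivVal n Z.K} {e : ℕ} (hw : ∀ a : X.R, 0 ≤ w.ord a)
    (hov : Over ι w z e) : idealOrd w I = e * idealOrd z I' := by
  have hI2 : I' = I.comap (TRI_aux.inc hq) := by
    ext b
    rw [Ideal.mem_comap, hI' b]
    constructor
    · rintro ⟨a, ha, hab⟩
      have h1 : TRI_aux.inc hq b = a := Subtype.ext hab.symm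
      rw [h1]
      exact ha
    · intro h
      exact ⟨TRI_aux.inc hq b, h, rfl⟩
  subst hI2
  have hι : Function.Injective ι := ι.toRingHom.injective
  have hpre : ∀ a ∈ s, ∃ b : Z.R, TRI_aux.inc hq b = a := by
    intro a ha
    obtain ⟨b, hb⟩ := (hq.inv (a : X.K)).2 (fun g hg => hs a ha g hg)
    have hbR : b ∈ Z.R := (hq.mem_R b).2 (by rw [hb]; exact a.2)
    exact ⟨⟨b, hbR⟩, Subtype.ext hb⟩
  have hmem : ∀ (a : X.R) (b : Z.R), a ∈ s → TRI_aux.inc hq b = a →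
      b ∈ I.comap (TRI_aux.inc hq) := by
    intro a b ha hb
    rw [Ideal.mem_comap, hb, hI]
    exact Ideal.subset_span ha
  have hne : ∀ b : Z.R, b ≠ 0 → TRI_aux.inc hq b ≠ 0 := by
    intro b hb h
    apply hb
    apply Subtype.ext
    apply hι
    have h1 : ι (b : Z.K) = 0 := congrArg Subtype.val h
    rw [h1]
    exact (map_zero ι).symm
  have hex : ∃ b ∈ I.comap (TRI_aux.inc hq), b ≠ 0 := by
    by_contra hcon
    apply hI0
    rw [hI, Ideal.span_eq_bot]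
    intro a ha
    by_contra ha0
    obtain ⟨b, hb⟩ := hpre a ha
    apply hcon
    refine ⟨b, hmem a b ha hb, ?_⟩
    rintro rfl
    apply ha0
    rw [← hb]
    exact map_zero _
  obtain ⟨he, hord⟩ := hov
  obtain ⟨b0, hb0, hb00⟩ := hex
  have heZ : (0 : ℤ) < e := by exact_mod_cast he
  have hz : ∀ b : Z.R, 0 ≤ z.ord b := by
    intro b
    have h1 := hw (TRI_aux.inc hq b)
    rw [TRI_aux.inc_coe, hord] at h1
    by_contra h2
    have h3 : z.ord (b : Z.K) < 0 := by omega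
    nlinarith
  set SJ : Set ℤ := {k : ℤ | ∃ a ∈ I.comap (TRI_aux.inc hq), a ≠ 0 ∧ z.ord (a : Z.K) = k}
    with hSJ
  have hJne : SJ.Nonempty := ⟨z.ord (b0 : Z.K), b0, hb0, hb00, rfl⟩
  have hJb : BddBelow SJ := by
    refine ⟨0, ?_⟩
    rintro k ⟨a, _, _, rfl⟩
    exact hz a
  obtain ⟨b1, hb1, hb10, hk1⟩ := Int.csInf_mem hJne hJb
  have hmin : ∀ b ∈ I.comap (TRI_aux.inc hq), b ≠ 0 → sInf SJ ≤ z.ord (b : Z.K) :=
    fun b hb hb0 => csInf_le hJb ⟨b, hb, hb0, rfl⟩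
  have hlo : ∀ a ∈ I, TRI_aux.Lo w (e * sInf SJ) a := by
    intro a ha
    rw [hI] at ha
    have h0 : ∀ x : X.R, x ≠ 0 → (x : X.K) ≠ 0 := fun x hx h => hx (Subtype.ext h)
    refine Submodule.span_induction (p := fun x _ => TRI_aux.Lo w (e * sInf SJ) x)
      ?_ ?_ ?_ ?_ ha
    · intro a' ha'
      obtain ⟨b, hb⟩ := hpre a' ha'
      by_cases hb0 : b = 0
      · left
        rw [← hb, hb0]
        exact map_zero _
      · right
        rw [← hb, TRI_aux.inc_coe, hord]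
        exact mul_le_mul_of_nonneg_left (hmin b (hmem a' b ha' hb) hb0) heZ.le
    · exact Or.inl rfl
    · intro x y _ _ hx hy
      rcases hx with rfl | hx
      · rw [zero_add]
        exact hy
      rcases hy with rfl | hy
      · rw [add_zero]
        exact Or.inr hx
      by_cases h1 : x = 0
      · rw [h1, zero_add]
        exact Or.inr hy
      by_cases h2 : y = 0
      · rw [h2, add_zero]
        exact Or.inr hx
      by_cases h3 : x + y = 0
      · exact Or.inl h3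
      · right
        have h4 := w.ord_add (x : X.K) (y : X.K) (h0 x h1) (h0 y h2) (h0 (x + y) h3)
        exact (le_min hx hy).trans h4
    · intro c x _ hx
      rcases hx with rfl | hx
      · rw [smul_zero]
        exact Or.inl rfl
      by_cases h1 : c = 0
      · rw [h1, zero_smul]
        exact Or.inl rfl
      by_cases h2 : x = 0
      · rw [h2, smul_zero]
        exact Or.inl rfl
      right
      have h3 := w.ord_mul (c : X.K) (x : X.K) (h0 c h1) (h0 x h2)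
      have h4 : w.ord ((c • x : X.R) : X.K) = w.ord ((c : X.K) * (x : X.K)) := rfl
      rw [h4, h3]
      have h5 := hw c
      omega
  change sInf {k : ℤ | ∃ a ∈ I, a ≠ 0 ∧ w.ord (a : X.K) = k} = e * sInf SJ
  apply le_antisymm
  · refine csInf_le ⟨e * sInf SJ, ?_⟩ ⟨TRI_aux.inc hq b1, hb1, hne b1 hb10, ?_⟩
    · rintro k ⟨a, ha, ha0, rfl⟩
      rcases hlo a ha with h | h
      · exact absurd h ha0
      · exact h
    · rw [TRI_aux.inc_coe, hord, hk1]
  · refine le_csInf ⟨_, TRI_aux.inc hq b1, hb1, hne b1 hb10, rfl⟩ ?_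
    rintro k ⟨a, ha, ha0, rfl⟩
    rcases hlo a ha with h | h
    · exact absurd h ha0
    · exact h

/-- The log discrepancies of `T` and `T'` in a neighbourhood. -/
theorem ld_near (hLDN : Stmt_LDN) (hFSM : Stmt_FSM) (I : Inp)
    (G : Subgroup (X.K ≃ₐ[ℂ] X.K)) (π : Y.K →ₐ[ℂ] X.K) (T : Triple X) (T' : Triple Y)
    (hn : 0 < n) (hQ : IsQuot X Y G π) (hC : Crepant π T T') :
    ∃ F : X.R, F ∉ X.m ∧ ∀ (w : DivVal n X.K) (v : DivVal n Y.K) (e : ℕ), Near X F w →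
      Over π w v e → T.logDisc w = e * T'.logDisc v := by
  obtain ⟨hG1, -, -, hG4⟩ := I.QGAL X Y G π hn hQ
  obtain ⟨a, ha⟩ := PULQ.exists_basis Y.trdeg
  have hπ : AlgebraicIndependent ℂ (fun i => π (a i)) := ha.map' (f := π) π.injective
  obtain ⟨g', hg', hω'⟩ := PULQ.exists_dlogs I.TBAS Y.trdeg a ha T'.ω T'.ω_ne
  have hD : dlogs (fun i => π (a i)) ≠ 0 := PULQ.dlogs_ne I.TBAS X.trdeg _ hπ
  have hD' : dlogs a ≠ 0 := PULQ.dlogs_ne I.TBAS Y.trdeg _ ha
  have hπg : π g' ≠ 0 := (map_ne_zero π).2 hg'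
  let E : Fin (Fintype.card (Option T'.I)) ≃ Option T'.I := (Fintype.equivFin _).symm
  let L : Option T'.I → ℝ := fun o => o.elim 1 T'.c
  let H : Option T'.I → X.K := fun o => o.elim (π g') fun i => π (T'.f i)
  have key : ∀ (w : DivVal n X.K) (v : DivVal n Y.K) (e : ℕ), Over π w v e →
      (e : ℝ) * T'.logDisc v = w.logOrd (dlogs fun i => π (a i)) +
        ∑ k, L (E k) * w.ord (H (E k)) := by
    intro w v e hov
    have h1 := (hG4 w v e hov g' a hg' (fun i => ha.ne_zero i) hD').2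
    rw [← hω', hFSM X.trdeg w (π g') _ hn hπg hD] at h1
    have h2 : ∑ k, L (E k) * (w.ord (H (E k)) : ℝ) = ∑ o, L o * (w.ord (H o) : ℝ) :=
      Equiv.sum_comp E fun o => L o * (w.ord (H o) : ℝ)
    rw [PULQ.logDisc_eq I.TXT hn, h2, Fintype.sum_option]
    have h3 : (e : ℝ) * v.logOrd T'.ω =
        w.ord (π g') + w.logOrd (dlogs fun i => π (a i)) := by
      exact_mod_cast h1.symm
    have h4 : ∑ i, T'.c i * (w.ord (π (T'.f i)) : ℝ) =
        e * ∑ i, T'.c i * (v.ord (T'.f i) : ℝ) := by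
      rw [Finset.mul_sum]
      refine Finset.sum_congr rfl fun i _ => ?_
      rw [hov.2]
      push_cast
      ring
    rw [mul_add, h3, ← h4]
    show _ = _ + (1 * (w.ord (π g') : ℝ) + _)
    have h5 : ∑ i, L (some i) * (w.ord (H (some i)) : ℝ) =
        ∑ i, T'.c i * (w.ord (π (T'.f i)) : ℝ) := rfl
    rw [h5]
    ring
  obtain ⟨F, hF, h⟩ := hLDN T (fun i => π (a i)) hn hD _ (fun k => L (E k)) (fun k => H (E k))
    (fun k => by
      rcases hk : E k with _ | i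
      · exact hπg
      · exact (map_ne_zero π).2 (T'.f_ne i))
    (fun w hw => by
      obtain ⟨v, e, ho⟩ := hG1 w
      rw [I.QPUL X Y G π T T' hn hQ hC w v e hw ho]
      exact key w v e ho)
  refine ⟨F, hF, fun w v e hw ho => ?_⟩
  rw [h w hw]
  exact (key w v e ho).symm

/-- The relation for the ideals, for all divisors over the affine variety `X`. -/
def IdRel {X Y : Germ n} (π : Y.K →ₐ[ℂ] X.K) (T : Triple X) (T' : Triple Y) : Prop :=
  ∀ (w : DivVal n X.K) (v : DivVal n Y.K) (e : ℕ), (∀ a : X.R, 0 ≤ w.ord a) → Over π w v e →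
    ∑ j, T.r j * idealOrd w (T.a j) = e * ∑ i, T'.r i * idealOrd v (T'.a i)

theorem disc_near {π : Y.K →ₐ[ℂ] X.K} {T : Triple X} {T' : Triple Y} (hR : IdRel π T T')
    {w : DivVal n X.K} {v : DivVal n Y.K} {e : ℕ} (hw : ∀ a : X.R, 0 ≤ w.ord a)
    (ho : Over π w v e) (hl : T.logDisc w = e * T'.logDisc v) : T.disc w = e * T'.disc v := by
  unfold Triple.disc
  rw [hl, hR w v e hw ho]
  ring

/-- The quotient by the cyclic group generated by `g`. -/
theorem data_near (I : Inp) {n : ℕ} {X Y : Germ n}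
    (G : Subgroup (X.K ≃ₐ[ℂ] X.K)) (π : Y.K →ₐ[ℂ] X.K) (T : Triple X) (T' : Triple Y)
    (hn : 0 < n) (hQ : IsQuot X Y G π) (hC : Crepant π T T') (hLC : T.LC)
    (g : X.K ≃ₐ[ℂ] X.K) (hg : g ∈ G) (hE : T.Effective) {m : ℕ}
    (A : MldG.TorusAction X m) (hA : A.InvTriple T) (hc : Comm A g)
    (hI : InvGen T (Subgroup.zpowers g)) :
    ∃ (Z : Germ n) (ι : Z.K →ₐ[ℂ] X.K) (TZ : Triple Z) (B : MldG.TorusAction Z m),
      IsQuot X Z (Subgroup.zpowers g) ι ∧ Crepant ι T TZ ∧ B.InvTriple TZ ∧ TZ.Effective ∧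
        TZ.LC ∧ IdRel ι T TZ := by
  have hle : Subgroup.zpowers g ≤ G := by
    rw [Subgroup.zpowers_le]
    exact hg
  have : Finite G := hQ.finite
  have hfin : Finite (Subgroup.zpowers g) :=
    Finite.of_injective (Subgroup.inclusion hle) (Subgroup.inclusion_injective hle)
  obtain ⟨Z, ι, hZ⟩ := I.EXQ I.FGI X (Subgroup.zpowers g) hfin
    (fun h hh => hQ.map_R h (hle hh)) (fun h hh => hQ.map_m h (hle hh))
  have hcomm : ∀ h ∈ Subgroup.zpowers g, Comm A h := by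
    have h1 : ∀ k : ℕ, Comm A (g ^ k) := by
      intro k
      induction k with
      | zero =>
        intro u a b ha hb
        have h2 : b = a := Subtype.ext (by rw [hb, pow_zero]; rfl)
        rw [h2]
        exact ha
      | succ k ih =>
        intro u a b ha hb
        rw [pow_succ'] at hb
        have h3 : (g ^ k) (a : X.K) ∈ X.R := hQ.map_R (g ^ k) (G.pow_mem hg k) a a.2
        exact hc u ⟨_, h3⟩ b (ih u a ⟨_, h3⟩ ha rfl) hb
    intro h hh
    have h4 : IsOfFinOrder g := by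
      have h5 := isOfFinOrder_of_finite (⟨g, hg⟩ : G)
      exact isOfFinOrder_iff_pow_eq_one.2 ⟨orderOf (⟨g, hg⟩ : G), h5.orderOf_pos,
        congrArg Subtype.val (pow_orderOf_eq_one (⟨g, hg⟩ : G))⟩
    obtain ⟨k, rfl⟩ := (Submonoid.mem_powers_iff _ _).1 (h4.mem_powers_iff_mem_zpowers.2 hh)
    exact h1 k
  obtain ⟨B, hB⟩ := I.TAZ I.LAT X Z (Subgroup.zpowers g) ι hZ A hcomm
  obtain ⟨TZ, φ, h1, h2, h3⟩ := I.TRZ I.QGAL I.TBAS I.FRM I.TXT I.TRI X Y Z G
    (Subgroup.zpowers g) π ι T T' hn hQ hC hZ hle hI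
  obtain ⟨h4, h5, h6, -⟩ := I.EFC I.QGAL I.QPUL I.THT I.PRM I.NIN I.RAM X Z (Subgroup.zpowers g) ι
    T TZ φ Set.univ hn hZ h3 h1 h2 A B hcomm hB hA hE hLC
    ⟨fun _ _ _ _ => trivial, fun _ _ => trivial⟩
  refine ⟨Z, ι, TZ, B, hZ, h3, h4, h5, h6, ?_⟩
  intro w z e hw ho
  rw [← Equiv.sum_comp φ fun j => T.r j * (idealOrd w (T.a j) : ℝ), Finset.mul_sum]
  refine Finset.sum_congr rfl fun j _ => ?_
  obtain ⟨s, hs, hs2⟩ := hI (φ j)
  rw [h1 j, tri_near hZ hs hs2 (T.a_ne _) (h2 j) hw ho]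
  push_cast
  ring

/-- the product of functions outside `𝔪` -/
theorem near_prod {ι : Type} (s : Finset ι) (F : ι → X.R) (hF : ∀ i ∈ s, F i ∉ X.m) :
    ∏ i ∈ s, F i ∉ X.m ∧ ∀ w : DivVal n X.K, Near X (∏ i ∈ s, F i) w → ∀ i ∈ s,
      Near X (F i) w := by
  classical
  induction s using Finset.induction_on with
  | empty =>
    refine ⟨?_, fun w _ i hi => absurd hi (Finset.notMem_empty i)⟩
    rw [Finset.prod_empty]
    exact (Ideal.ne_top_iff_one _).1 X.max.ne_top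
  | insert i s hi ih =>
    obtain ⟨h1, h2⟩ := ih fun j hj => hF j (Finset.mem_insert_of_mem hj)
    rw [Finset.prod_insert hi]
    have h3 := hF i (Finset.mem_insert_self i s)
    refine ⟨mul_notMem h3 h1, fun w hw j hj => ?_⟩
    obtain ⟨h4, h5⟩ := near_mul h3 h1 hw
    rcases Finset.mem_insert.1 hj with rfl | hj
    · exact h4
    · exact h2 w h5 j hj

/-- The minimal log discrepancy of `Y` is at most the one of `X / ⟨g⟩`. -/
theorem mld_le' (I : Inp) {n : ℕ} {X Y Z : Germ n}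
    (G : Subgroup (X.K ≃ₐ[ℂ] X.K)) (π : Y.K →ₐ[ℂ] X.K) (ι : Z.K →ₐ[ℂ] X.K) (T : Triple X)
    (T' : Triple Y) (TZ : Triple Z) (hn : 0 < n) (hQ : IsQuot X Y G π) (hC : Crepant π T T')
    (hLC : T.LC) (g : X.K ≃ₐ[ℂ] X.K) (hg : g ∈ G) (hQZ : IsQuot X Z (Subgroup.zpowers g) ι)
    (hCZ : Crepant ι T TZ) (hLCZ : TZ.LC) : T'.mld ≤ TZ.mld := by
  by_cases hat : ∃ v, Y.At v
  · exact mld_le I G π ι T T' TZ hn hQ hC hLC g hg hQZ hCZ hat
  · have h0 : T'.mld = 0 := by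
      have h1 : {a : ℝ | ∃ v, Y.At v ∧ T'.disc v = a} = ∅ := by
        refine Set.eq_empty_iff_forall_notMem.2 fun a => ?_
        rintro ⟨v, hv, -⟩
        exact hat ⟨v, hv⟩
      unfold Triple.mld
      rw [h1, Real.sInf_empty]
    rw [h0]
    refine Real.sInf_nonneg ?_
    rintro _ ⟨z, hz, rfl⟩
    exact hLCZ z (THT_aux.through_of_at Z z hz)

/-- The triple `T'` on `Y` is the quotient of a triple on `X` (which may depend on `g`) whose ideals are
generated by `g`-invariant functions and which is invariant under a torus which commutes with `g`. -/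
def Lifts {n : ℕ} {X Y : Germ n} (π : Y.K →ₐ[ℂ] X.K) (T' : Triple Y) (g : X.K ≃ₐ[ℂ] X.K) : Prop :=
  ∃ (m : ℕ) (A : MldG.TorusAction X m) (T : Triple X), n ≤ m + 1 ∧ Comm A g ∧ A.InvTriple T ∧
    InvGen T (Subgroup.zpowers g) ∧ T.LC ∧ T.Effective ∧ Crepant π T T' ∧ IdRel π T T'

/-- LSQ: lower semicontinuity in a neighbourhood for quotients. -/
theorem main_lifts (I : Inp) (hLDN : Stmt_LDN) (hFSM : Stmt_FSM) (hL : Stmt_LSN) {n : ℕ}
    {X Y : Germ n} (G : Subgroup (X.K ≃ₐ[ℂ] X.K)) (π : Y.K →ₐ[ℂ] X.K)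
    (T' : Triple Y) (hQ : IsQuot X Y G π) (hG : ∀ g ∈ G, Lifts π T' g) :
    AmbN T' ∧ T'.mld ≤ n := by
  rcases Nat.eq_zero_or_pos n with hn | hn
  · subst hn
    refine ⟨⟨1, (Ideal.ne_top_iff_one _).1 Y.max.ne_top, fun v _ _ _ => (no_val v).elim⟩, ?_⟩
    have h1 : {a : ℝ | ∃ v, Y.At v ∧ T'.disc v = a} = ∅ := by
      refine Set.eq_empty_iff_forall_notMem.2 fun a => ?_
      rintro ⟨v, -, -⟩
      exact no_val v
    unfold Triple.mld
    rw [h1, Real.sInf_empty]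
    simp
  obtain ⟨hy1, hy2, hy3, -⟩ := I.QGAL X Y G π hn hQ
  have : Finite G := hQ.finite
  have hft : Fintype G := Fintype.ofFinite G
  -- the contribution of `g`
  have hP : ∀ g : G, ∃ F : X.R, F ∉ X.m ∧ ∀ (w : DivVal n X.K) (v : DivVal n Y.K) (e : ℕ),
      Near X F w → Over π w v e → (∀ a : X.K, a ≠ 0 → w.Ge (w.ord a + 1)
        ((g : X.K ≃ₐ[ℂ] X.K) a - algebraMap ℂ X.K
          (Complex.exp (2 * Real.pi * Complex.I * w.ord a / e)) * a)) →
      ∀ d : ℕ, DimLE X w d → T'.mld ≤ T'.disc v + d := by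
    rintro ⟨g, hg⟩
    obtain ⟨m, A, T, hm, hc, hA, hI, hLC, hE, hC, hR⟩ := hG g hg
    obtain ⟨F0, hF0, hl0⟩ := ld_near hLDN hFSM I G π T T' hn hQ hC
    obtain ⟨Z, ι, TZ, B, hQZ, hCZ, hB, hEZ, hLCZ, hRZ⟩ :=
      data_near I G π T T' hn hQ hC hLC g hg hE A hA hc hI
    obtain ⟨F1, hF1, hl1⟩ := ld_near hLDN hFSM I _ ι T TZ hn hQZ hCZ
    obtain ⟨⟨f, hf, hZ⟩, -⟩ := hL B TZ hm hB hEZ hLCZ
    have hF2 : resA hQZ f ∉ X.m := fun h => hf ((hQZ.mem_m f (resA hQZ f) rfl).2 h)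
    refine ⟨F0 * (F1 * resA hQZ f), mul_notMem hF0 (mul_notMem hF1 hF2), ?_⟩
    intro w v e hw ho hg2 d hd
    obtain ⟨hw0, hw'⟩ := near_mul hF0 (mul_notMem hF1 hF2) hw
    obtain ⟨hw1, hw2⟩ := near_mul hF1 hF2 hw'
    obtain ⟨z, ez, hoz⟩ := (I.QGAL X Z _ ι hn hQZ).1 w
    have hez : (0 : ℤ) < ez := by exact_mod_cast hoz.1
    have hz : Near Z f z := by
      refine ⟨nonneg_over hQZ hoz hw.1, ?_⟩
      have h1 := hw2.2
      rw [resA_coe, hoz.2] at h1
      rcases mul_eq_zero.1 h1 with h2 | h2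
      · omega
      · exact h2
    have hfix : ∀ b : Z.K, g (ι b) = ι b := fun b =>
      (hQZ.inv (ι b)).1 ⟨b, rfl⟩ g (Subgroup.mem_zpowers g)
    have hle : Subgroup.zpowers g ≤ G := by
      rw [Subgroup.zpowers_le]
      exact hg
    have htow : ∀ c : Y.K, ∃ b : Z.K, ι b = π c := fun c =>
      (hQZ.inv (π c)).2 fun h hh => (hQ.inv (π c)).1 ⟨c, rfl⟩ h (hle hh)
    have h3 : e = ez := Nat.dvd_antisymm
      (Int.natCast_dvd_natCast.1 (CONT_aux.dvd_of_inertia ho.1 hoz hfix hg2))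
      (Int.natCast_dvd_natCast.1 (CONT_aux.dvd_of_tower hoz ho htow))
    subst h3
    have h4 := disc_near hRZ hw.1 hoz (hl1 w z _ hw1 hoz)
    rw [disc_near hR hw.1 ho (hl0 w v _ hw0 ho)] at h4
    have he : (0 : ℝ) < e := by exact_mod_cast ho.1
    rw [mul_left_cancel₀ he.ne' h4]
    exact (mld_le' I G π ι T T' TZ hn hQ hC hLC g hg hQZ hCZ hLCZ).trans
      (hZ z hz d (dim_down hQZ hoz hd))
  constructor
  · choose F hF hF' using hP
    obtain ⟨h1, h2⟩ := near_prod Finset.univ F fun g _ => hF g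
    obtain ⟨f, hf, hf'⟩ := norm_near hQ _ h1
    refine ⟨f, hf, fun v hv d hd => ?_⟩
    obtain ⟨w, e, ho⟩ := hy2 v
    have hw := hf' w v e ho hv
    obtain ⟨g, hg, -, hg2⟩ := hy3 w v e ho
    exact hF' ⟨g, hg⟩ w v e (h2 w hw ⟨g, hg⟩ (Finset.mem_univ _)) ho hg2 d
      (dim_up hQ ho hw.1 hd)
  · obtain ⟨m, A, T, hm, hc, hA, hI, hLC, hE, hC, hR⟩ := hG 1 G.one_mem
    obtain ⟨Z, ι, TZ, B, hQZ, hCZ, hB, hEZ, hLCZ, -⟩ :=
      data_near I G π T T' hn hQ hC hLC 1 G.one_mem hE A hA hc hI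
    exact (mld_le' I G π ι T T' TZ hn hQ hC hLC 1 G.one_mem hQZ hCZ hLCZ).trans
      (hL B TZ hm hB hEZ hLCZ).2

/-- The same for one triple on `X` whose ideals are generated by invariant functions. -/
theorem main_near (I : Inp) (hLDN : Stmt_LDN) (hFSM : Stmt_FSM) (hL : Stmt_LSN) {n : ℕ}
    {X Y : Germ n} (G : Subgroup (X.K ≃ₐ[ℂ] X.K)) (π : Y.K →ₐ[ℂ] X.K) (T : Triple X)
    (T' : Triple Y) (hQ : IsQuot X Y G π) (hC : Crepant π T T') (hR : IdRel π T T')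
    (hLC : T.LC) (hE : T.Effective) (hG : CommAll G T) : AmbN T' ∧ T'.mld ≤ n := by
  refine main_lifts I hLDN hFSM hL G π T' hQ fun g hg => ?_
  obtain ⟨m, A, hm, hA, hc, hI⟩ := hG g hg
  exact ⟨m, A, T, hm, hc, hA, hI, hLC, hE, hC, hR⟩

end

end LSQ
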