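import Pool.Agent.LSQ.MainQ
import Pool.Agent.LSQ.NearQ
import Pool.Agent.LSQ.NRI

/-!
# LSQ: the quotient by a cyclic group, arbitrary invariant ideals

`LSQ.data` without the hypothesis `InvGen`.
-/

set_option autoImplicit false

namespace LSQ

open MldGeo NDQ LSCM UNC

noncomputable section

/-- Powers of `g` commute with the torus. -/
theorem comm_zpowers {n m : ℕ} {X Y : Germ n} {G : Subgroup (X.K ≃ₐ[ℂ] X.K)}
    {π : Y.K →ₐ[ℂ] X.K} (hQ : IsQuot X Y G π) {g : X.K ≃ₐ[ℂ] X.K} (hg : g ∈ G)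
    {A : MldG.TorusAction X m} (hc : Comm A g) : ∀ h ∈ Subgroup.zpowers g, Comm A h := by
  have : Finite G := hQ.finite
  have h1 : ∀ k : ℕ, Comm A (g ^ k) := by
    intro k
    induction k with
    | zero =>
      intro u a b ha hb
      have h2 : b = a := Subtype.ext (by rw [hb, pow_zero]; rfl)
      rw [h2]
      exact ha
    | succ k ih =>
      intro u a b ha hb
      rw [pow_succ'] at hb
      have h3 : (g ^ k) (a : X.K) ∈ X.R := hQ.map_R (g ^ k) (G.pow_mem hg k) a a.2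
      exact hc u ⟨_, h3⟩ b (ih u a ⟨_, h3⟩ ha rfl) hb
  intro h hh
  have h4 : IsOfFinOrder g := by
    have h5 := isOfFinOrder_of_finite (⟨g, hg⟩ : G)
    exact isOfFinOrder_iff_pow_eq_one.2 ⟨orderOf (⟨g, hg⟩ : G), h5.orderOf_pos,
      congrArg Subtype.val (pow_orderOf_eq_one (⟨g, hg⟩ : G))⟩
  obtain ⟨k, rfl⟩ := (Submonoid.mem_powers_iff _ _).1 (h4.mem_powers_iff_mem_zpowers.2 hh)
  exact h1 k

/-- The quotient by the cyclic group generated by `g` (no condition on the ideals). -/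
theorem data' (I : Inp) {n : ℕ} {X Y : Germ n}
    (G : Subgroup (X.K ≃ₐ[ℂ] X.K)) (π : Y.K →ₐ[ℂ] X.K) (T : Triple X) (T' : Triple Y)
    (hn : 0 < n) (hQ : IsQuot X Y G π) (hC : Crepant π T T') (hLC : T.LC)
    (g : X.K ≃ₐ[ℂ] X.K) (hg : g ∈ G) (hE : T.Effective) {m : ℕ}
    (A : MldG.TorusAction X m) (hA : A.InvTriple T) (hc : Comm A g) :
    ∃ (Z : Germ n) (ι : Z.K →ₐ[ℂ] X.K) (TZ : Triple Z) (B : MldG.TorusAction Z m),
      IsQuot X Z (Subgroup.zpowers g) ι ∧ Crepant ι T TZ ∧ B.InvTriple TZ ∧ TZ.Effective ∧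
        TZ.LC := by
  have hle : Subgroup.zpowers g ≤ G := by
    rw [Subgroup.zpowers_le]
    exact hg
  obtain ⟨T1, h1, h2, h3, h4, h5, h6, h7, -⟩ := t_NRI I.QGAL G π T T' hn hQ hC hLC hE
    (Subgroup.zpowers g) hle A hA (comm_zpowers hQ hg hc)
  obtain ⟨Z, ι, TZ, B, hZ, hCZ, hB, hEZ, hLCZ⟩ :=
    data I G π T1 T' hn hQ h3 h4 g hg h5 A h1 hc h2
  refine ⟨Z, ι, TZ, B, hZ, ⟨fun w v e Q hQm hQo ho => ?_, fun w z e hw ho => ?_⟩, hB, hEZ, hLCZ⟩
  · rw [← h6]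
    exact hCZ.div w v e Q hQm hQo ho
  · rw [← hCZ.ideals w z e hw ho]
    have h8 := h7 w hw
    unfold Triple.disc at h8
    rw [h6] at h8
    linarith

/-- The same with the relation for the ideals along all divisors over `X`. -/
theorem data_near' (I : Inp) {n : ℕ} {X Y : Germ n}
    (G : Subgroup (X.K ≃ₐ[ℂ] X.K)) (π : Y.K →ₐ[ℂ] X.K) (T : Triple X) (T' : Triple Y)
    (hn : 0 < n) (hQ : IsQuot X Y G π) (hC : Crepant π T T') (hRel : IdRel π T T')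
    (hLC : T.LC) (g : X.K ≃ₐ[ℂ] X.K) (hg : g ∈ G) (hE : T.Effective) {m : ℕ}
    (A : MldG.TorusAction X m) (hA : A.InvTriple T) (hc : Comm A g) :
    ∃ (Z : Germ n) (ι : Z.K →ₐ[ℂ] X.K) (TZ : Triple Z) (B : MldG.TorusAction Z m),
      IsQuot X Z (Subgroup.zpowers g) ι ∧ Crepant ι T TZ ∧ B.InvTriple TZ ∧ TZ.Effective ∧
        TZ.LC ∧ IdRel ι T TZ := by
  have hle : Subgroup.zpowers g ≤ G := by
    rw [Subgroup.zpowers_le]
    exact hg
  obtain ⟨T1, h1, h2, h3, h4, h5, h6, h7, h8⟩ := t_NRI I.QGAL G π T T' hn hQ hC hLC hE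
    (Subgroup.zpowers g) hle A hA (comm_zpowers hQ hg hc)
  have hrel1 : IdRel π T1 T' := fun w v e hw ho => h8 w v e hw ho fun h hh =>
    hRel _ v e (fun a => hw ⟨h a, hQ.map_R h (hle hh) a a.2⟩) (over_comap hQ ho (hle hh))
  obtain ⟨Z, ι, TZ, B, hZ, hCZ, hB, hEZ, hLCZ, hIZ⟩ :=
    data_near I G π T1 T' hn hQ h3 h4 g hg h5 A h1 hc h2
  have hrel : IdRel ι T TZ := by
    intro w z e hw ho
    obtain ⟨v, e', ho'⟩ := (I.QGAL X Y G π hn hQ).1 w
    rw [← hIZ w z e hw ho, hRel w v e' hw ho', hrel1 w v e' hw ho']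
  refine ⟨Z, ι, TZ, B, hZ, ⟨fun w v e Q hQm hQo ho => ?_, fun w z e hw ho => hrel w z e hw.1 ho⟩,
    hB, hEZ, hLCZ, hrel⟩
  rw [← h6]
  exact hCZ.div w v e Q hQm hQo ho

end

end LSQ
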