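import Pool.Agent.LSCM.StN
import Pool.Agent.LSCM.EXP
import Pool.Agent.LSCM.UNN
import Pool.Agent.MldGeo.QAT

/-!
# UNI: a relation between the orders of ideals which holds at a point holds in a neighbourhood
-/

set_option autoImplicit false

namespace LSQ

open MldGeo LSCM

noncomputable section

variable {n : ℕ}

/-- the germ of a chart -/
@[reducible] def chart (X : Germ n) (S : Subalgebra ℂ X.K) (hfg : S.FG)
    (hfr : ∀ a : X.K, ∃ r ∈ S, ∃ s ∈ S, s ≠ 0 ∧ a * s = r)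
    (hn : ∀ a : X.K, IsIntegral S a → a ∈ S) (M : Ideal S) (hM : M.IsMaximal) : Germ n where
  K := X.K
  fieldK := X.fieldK
  algK := X.algK
  R := S
  fg := hfg
  frac := hfr
  normal := hn
  trdeg := X.trdeg
  m := M
  max := hM

/-- A function of nonnegative order along all prime divisors is regular. -/
theorem mem_of_ord (hLOC : Stmt_LOC) (X : Germ n) (S : Subalgebra ℂ X.K) (hfg : S.FG)
    (hfr : ∀ a : X.K, ∃ r ∈ S, ∃ s ∈ S, s ≠ 0 ∧ a * s = r)
    (hn : ∀ a : X.K, IsIntegral S a → a ∈ S) (h : X.K)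
    (hh : ∀ (v : DivVal n X.K) (P : Ideal S), P.IsPrime → P.height = 1 →
      (∀ a : S, 0 ≤ v.ord (a : X.K)) → (∀ a : S, a ∈ P ↔ a = 0 ∨ 0 < v.ord (a : X.K)) →
      v.Ge 0 h) : h ∈ S := by
  by_contra hcon
  let J : Ideal S :=
    { carrier := {a | (a : X.K) * h ∈ S}
      zero_mem' := by
        show ((0 : S) : X.K) * h ∈ S
        have : ((0 : S) : X.K) * h = 0 := by simp
        rw [this]
        exact S.zero_mem
      add_mem' := by
        intro a b ha hb
        show ((a + b : S) : X.K) * h ∈ S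
        have : ((a + b : S) : X.K) * h = (a : X.K) * h + (b : X.K) * h := by
          push_cast
          ring
        rw [this]
        exact S.add_mem ha hb
      smul_mem' := by
        intro c a ha
        show ((c • a : S) : X.K) * h ∈ S
        have : ((c • a : S) : X.K) * h = (c : X.K) * ((a : X.K) * h) := by
          rw [smul_eq_mul]
          push_cast
          ring
        rw [this]
        exact S.mul_mem c.2 ha }
  have hJ : J ≠ ⊤ := by
    rw [Ideal.ne_top_iff_one]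
    intro h1
    apply hcon
    have h2 : ((1 : S) : X.K) * h ∈ S := h1
    simpa using h2
  obtain ⟨M, hM, hJM⟩ := Ideal.exists_le_maximal J hJ
  obtain ⟨r, s, hs, hrs⟩ := hLOC (chart X S hfg hfr hn M hM) h fun v P _ hv =>
    hh v P hv.1 hv.2.1 hv.2.2.1 hv.2.2.2
  apply hs
  apply hJM
  show ((s : S) : X.K) * h ∈ S
  rw [mul_comm, hrs]
  exact r.2

/-- height one primes which contain a nonzero element are minimal over it -/
theorem finite_primes {A : Type} [CommRing A] [IsDomain A] [IsNoetherianRing A] (s : A)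
    (hs : s ≠ 0) : {P : Ideal A | P.IsPrime ∧ P.height = 1 ∧ s ∈ P}.Finite := by
  refine Set.Finite.subset (Ideal.finite_minimalPrimes_of_isNoetherianRing A (Ideal.span {s})) ?_
  rintro P ⟨hP, hP1, hsP⟩
  obtain ⟨Q, hQ, hQP⟩ := Ideal.exists_minimalPrimes_le (I := Ideal.span {s}) (J := P)
    ((Ideal.span_singleton_le_iff_mem _).2 hsP)
  rcases eq_or_lt_of_le hQP with h | h
  · rw [← h]
    exact hQ
  · exfalso
    have hQp : Q.IsPrime := hQ.1.1
    have hsQ : s ∈ Q := hQ.1.2 (Ideal.mem_span_singleton_self s)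
    have h1 := Ideal.height_add_one_le_of_lt_of_isPrime h
    rw [hP1] at h1
    have h2 : Q.height = 0 := by
      by_contra hne
      have h6 := Order.one_le_iff_ne_zero.2 hne
      have h7 : (1 : ℕ∞) + 1 ≤ 1 := le_trans (add_le_add_left h6 1) h1
      exact absurd h7 (by decide)
    rw [Ideal.height_eq_zero_iff_eq_bot] at h2
    rw [h2, Ideal.mem_bot] at hsQ
    exact hs hsQ

/-- CH: functions on a chart. -/
theorem chart_near (hLOC : Stmt_LOC) (X : Germ n) (S : Subalgebra ℂ X.K) (hfg : S.FG)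
    (hfr : ∀ a : X.K, ∃ r ∈ S, ∃ s ∈ S, s ≠ 0 ∧ a * s = r)
    (hn : ∀ a : X.K, IsIntegral S a → a ∈ S) (hXS : X.R ≤ S) (h : X.K)
    (hh : ∀ w : DivVal n X.K, (∀ a ∈ S, 0 ≤ w.ord a) → X.Through w → 0 ≤ w.ord h) :
    ∃ g : X.R, g ∉ X.m ∧ ∀ w : DivVal n X.K, (∀ a ∈ S, 0 ≤ w.ord a) → w.ord g = 0 →
      0 ≤ w.ord h := by
  classical
  obtain ⟨M0, hM0⟩ := Ideal.exists_maximal S
  let Y : Germ n := chart X S hfg hfr hn M0 hM0
  have hNS : IsNoetherianRing S := DIV.noeth Y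
  obtain ⟨r, hr, s, hs, hs0, hrs⟩ := hfr h
  let s' : S := ⟨s, hs⟩
  have hs'0 : s' ≠ 0 := fun h0 => hs0 (congrArg Subtype.val h0)
  have hfin := finite_primes s' hs'0
  let PP : Finset (Ideal S) := hfin.toFinset
  have hmem : ∀ P, P ∈ PP ↔ P.IsPrime ∧ P.height = 1 ∧ s' ∈ P := fun P => by
    rw [Set.Finite.mem_toFinset]
    rfl
  have hne : ∀ g : X.R, g ∉ X.m → (g : X.K) ≠ 0 := fun g hg h0 => hg (by
    have : g = 0 := Subtype.ext h0
    rw [this]
    exact X.m.zero_mem)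
  have h1m : (1 : X.R) ∉ X.m := (Ideal.ne_top_iff_one _).1 X.max.ne_top
  -- the factors
  have key : ∀ P ∈ PP, ∃ g : X.R, g ∉ X.m ∧ ∀ v : DivVal n X.K, (∀ a : S, 0 ≤ v.ord (a : X.K)) →
      (∀ a : S, a ∈ P ↔ a = 0 ∨ 0 < v.ord (a : X.K)) → 0 ≤ v.ord g + v.ord h := by
    intro P hP
    obtain ⟨hPp, hP1, hsP⟩ := (hmem P).1 hP
    obtain ⟨v0, hv0, hv0'⟩ := t_DIV Y P hPp hP1
    have huniq : ∀ v : DivVal n X.K, (∀ a : S, 0 ≤ v.ord (a : X.K)) →
        (∀ a : S, a ∈ P ↔ a = 0 ∨ 0 < v.ord (a : X.K)) → ∀ a : X.K, v0.ord a = v.ord a := by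
      intro v hv1 hv2
      refine DivVal.ord_eq_of_OV (v := v0) fun a ha => ?_
      obtain ⟨r1, s1, hs1, h1⟩ := hv0' a ha
      have hs10 : (s1 : X.K) ≠ 0 := fun h0 => hs1 (by
        have : s1 = 0 := Subtype.ext h0
        rw [this]
        exact P.zero_mem)
      have h2 : v.ord (s1 : X.K) = 0 := by
        have h3 := mt (hv2 s1).2 hs1
        push Not at h3
        exact le_antisymm h3.2 (hv1 s1)
      by_cases ha0 : a = 0
      · exact Or.inl ha0
      · have h3 := v.ord_mul a (s1 : X.K) ha0 hs10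
        have h4 : 0 ≤ v.ord (r1 : X.K) := hv1 r1
        rw [← h1, h3, h2] at h4
        right
        omega
    by_cases hT : ∀ g : X.R, g ∉ X.m → (⟨g, hXS g.2⟩ : S) ∉ P
    · refine ⟨1, h1m, fun v hv1 hv2 => ?_⟩
      have h2 : X.Through v := by
        refine ⟨fun a => hv1 ⟨a, hXS a.2⟩, fun a ha => ?_⟩
        have h3 := mt (hv2 ⟨a, hXS a.2⟩).2 (hT a ha)
        push Not at h3
        exact le_antisymm h3.2 (hv1 ⟨a, hXS a.2⟩)
      have h3 := hh v (fun a ha => hv1 ⟨a, ha⟩) h2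
      have h4 : v.ord ((1 : X.R) : X.K) = 0 := DivVal.ord_one v
      rw [h4, zero_add]
      exact h3
    · push Not at hT
      obtain ⟨g, hg, hgP⟩ := hT
      have hp : X.m.IsPrime := X.max.isPrime
      refine ⟨g ^ (v0.ord h).natAbs, fun h0 => hg (hp.mem_of_pow_mem _ h0), fun v hv1 hv2 => ?_⟩
      have h2 : 0 < v.ord (g : X.K) := by
        rcases (hv2 ⟨g, hXS g.2⟩).1 hgP with h3 | h3
        · exact absurd (congrArg Subtype.val h3) (hne g hg)
        · exact h3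
      have h3 : v.ord ((g ^ (v0.ord h).natAbs : X.R) : X.K) =
          (v0.ord h).natAbs * v.ord (g : X.K) := by
        have h4 : ((g ^ (v0.ord h).natAbs : X.R) : X.K) = (g : X.K) ^ (v0.ord h).natAbs := by
          push_cast
          rfl
        rw [h4, DivVal.ord_pow]
      rw [h3, ← huniq v hv1 hv2 h]
      have h4 : -((v0.ord h).natAbs : ℤ) ≤ v0.ord h := by omega
      nlinarith [Int.natCast_nonneg (v0.ord h).natAbs]
  choose! gP hgP1 hgP2 using key
  have hp : X.m.IsPrime := X.max.isPrime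
  have hgm : ∏ P ∈ PP, gP P ∉ X.m := by
    intro h0
    obtain ⟨P, hP, hP2⟩ := (hp.prod_mem_iff).1 h0
    exact hgP1 P hP hP2
  refine ⟨∏ P ∈ PP, gP P, hgm, fun w hw hw0 => ?_⟩
  by_cases hh0 : h = 0
  · rw [hh0, w.ord_zero]
  have hg0 := hne _ hgm
  have hmemS : ((∏ P ∈ PP, gP P : X.R) : X.K) * h ∈ S := by
    refine mem_of_ord hLOC X S hfg hfr hn _ fun v P hPp hP1 hv1 hv2 => Or.inr ?_
    rw [v.ord_mul _ _ hg0 hh0]
    have hpr : v.ord ((∏ P ∈ PP, gP P : X.R) : X.K) = ∑ P ∈ PP, v.ord (gP P : X.K) := by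
      have h1 : ((∏ P ∈ PP, gP P : X.R) : X.K) = ∏ P ∈ PP, (gP P : X.K) :=
        map_prod X.R.val _ _
      rw [h1, DivVal.ord_prod]
      exact fun P hP => hne _ (hgP1 P hP)
    have hnn : ∀ Q : Ideal S, 0 ≤ v.ord (gP Q : X.K) := fun Q => hv1 ⟨gP Q, hXS (gP Q).2⟩
    rw [hpr]
    by_cases hsP : s' ∈ P
    · have hP : P ∈ PP := (hmem P).2 ⟨hPp, hP1, hsP⟩
      have h1 := hgP2 P hP v hv1 hv2
      have h2 : v.ord (gP P : X.K) ≤ ∑ Q ∈ PP, v.ord (gP Q : X.K) :=
        Finset.single_le_sum (f := fun Q => v.ord (gP Q : X.K)) (fun Q _ => hnn Q) hP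
      omega
    · have h1 := mt (hv2 s').2 hsP
      push Not at h1
      have h2 : v.ord s = 0 := le_antisymm h1.2 (hv1 s')
      have h3 := v.ord_mul h s hh0 hs0
      have h4 : 0 ≤ v.ord r := hv1 ⟨r, hr⟩
      rw [hrs] at h3
      have h5 : 0 ≤ ∑ Q ∈ PP, v.ord (gP Q : X.K) := Finset.sum_nonneg fun Q _ => hnn Q
      omega
  have h1 := hw _ hmemS
  rw [w.ord_mul _ _ hg0 hh0, hw0, zero_add] at h1
  exact h1

/-- orders of the elements of an ideal -/
theorem ge_span {X : Germ n} (w : DivVal n X.K) (hw : ∀ a : X.R, 0 ≤ w.ord a) (k : ℤ)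
    (s : Set X.R) (hs : ∀ a ∈ s, w.Ge k (a : X.K)) (a : X.R) (ha : a ∈ Ideal.span s) :
    w.Ge k (a : X.K) := by
  refine Submodule.span_induction (p := fun x _ => w.Ge k ((x : X.R) : X.K)) ?_ ?_ ?_ ?_ ha
  · exact fun x hx => hs x hx
  · exact Or.inl rfl
  · intro x y _ _ hx hy
    exact hx.add hy
  · intro c x _ hx
    exact DivVal.Ge.mul_left (DivVal.Ge.of_le (hw c)) hx

/-- the order of an ideal is the least order of the generators -/
theorem idealOrd_gens {X : Germ n} (w : DivVal n X.K) (hw : ∀ a : X.R, 0 ≤ w.ord a)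
    (I : Ideal X.R) (T : Finset X.R) (hT : Ideal.span (T : Set X.R) = I) (t₀ : X.R) (ht₀ : t₀ ∈ T)
    (h0 : t₀ ≠ 0) (hmin : ∀ t ∈ T, w.Ge (w.ord (t₀ : X.K)) (t : X.K)) :
    idealOrd w I = w.ord (t₀ : X.K) := by
  unfold idealOrd
  have h1 : ∀ a ∈ I, a ≠ 0 → w.ord (t₀ : X.K) ≤ w.ord (a : X.K) := by
    intro a ha ha0
    refine (ge_span w hw _ (T : Set X.R) (fun t ht => hmin t ht) a (hT ▸ ha)).le ?_
    exact fun h => ha0 (Subtype.ext h)
  apply le_antisymm
  · refine csInf_le ⟨w.ord (t₀ : X.K), ?_⟩ ⟨t₀, hT ▸ Ideal.subset_span ht₀, h0, rfl⟩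
    rintro _ ⟨a, ha, ha0, rfl⟩
    exact h1 a ha ha0
  · refine le_csInf ⟨_, t₀, hT ▸ Ideal.subset_span ht₀, h0, rfl⟩ ?_
    rintro _ ⟨a, ha, ha0, rfl⟩
    exact h1 a ha ha0

/-- integral elements have nonnegative order -/
theorem nonneg_integral {K : Type} [Field K] [Algebra ℂ K] (w : DivVal n K) (B : Subalgebra ℂ K)
    (hB : ∀ b ∈ B, 0 ≤ w.ord b) (a : K) (ha : IsIntegral B a) : 0 ≤ w.ord a := by
  by_cases ha0 : a = 0
  · rw [ha0, w.ord_zero]
  obtain ⟨p, hp, hp0⟩ := ha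
  refine QAT.bound w ha0 (N := p.natDegree) (fun k => ((p.coeff k : B) : K)) ?_
    fun k _ => DivVal.Ge.of_le (hB _ (p.coeff k).2)
  rw [Polynomial.eval₂_eq_sum_range, Finset.sum_range_succ, hp.coeff_natDegree, map_one,
    one_mul] at hp0
  rw [eq_neg_iff_add_eq_zero, add_comm]
  exact hp0

/-- a chart of the blow up -/
theorem exists_chart (X : Germ n) {κ : Type} [Fintype κ] (T : κ → Finset X.R)
    (σ : κ → X.R) :
    ∃ S : Subalgebra ℂ X.K, S.FG ∧ (∀ a : X.K, ∃ r ∈ S, ∃ s ∈ S, s ≠ 0 ∧ a * s = r) ∧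
      (∀ a : X.K, IsIntegral S a → a ∈ S) ∧ X.R ≤ S ∧
      (∀ k, ∀ t ∈ T k, (t : X.K) / (σ k : X.K) ∈ S) ∧
      ∀ w : DivVal n X.K, (∀ a : X.R, 0 ≤ w.ord a) →
        (∀ k, ∀ t ∈ T k, w.Ge 0 ((t : X.K) / (σ k : X.K))) → ∀ a ∈ S, 0 ≤ w.ord a := by
  classical
  obtain ⟨u, hu⟩ := X.fg
  let U : Finset X.K := u ∪ Finset.univ.biUnion fun k =>
    (T k).image fun t : X.R => (t : X.K) / (σ k : X.K)
  let B : Subalgebra ℂ X.K := Algebra.adjoin ℂ (U : Set X.K)
  have hXB : X.R ≤ B := by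
    rw [← hu]
    refine Algebra.adjoin_mono ?_
    intro a ha
    rw [Finset.mem_coe, Finset.mem_union]
    exact Or.inl ha
  obtain ⟨S, m, hm, hfg, hfr, hn, hBS, hint⟩ := EXP.exists_germ X B ⟨U, rfl⟩ hXB
  refine ⟨S, hfg, hfr, hn, hXB.trans hBS, fun k t ht => hBS ?_, fun w hw hwT a ha => ?_⟩
  · refine Algebra.subset_adjoin ?_
    rw [Finset.mem_coe, Finset.mem_union]
    refine Or.inr ?_
    rw [Finset.mem_biUnion]
    exact ⟨k, Finset.mem_univ k, Finset.mem_image.2 ⟨t, ht, rfl⟩⟩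
  · refine nonneg_integral w B (fun b hb => ?_) a (hint a ha)
    have h1 : w.Ge 0 b := by
      induction hb using Algebra.adjoin_induction with
      | mem x hx =>
        rw [Finset.mem_coe, Finset.mem_union] at hx
        rcases hx with hx | hx
        · have h1 : x ∈ X.R := by
            rw [← hu]
            exact Algebra.subset_adjoin hx
          exact DivVal.Ge.of_le (hw ⟨x, h1⟩)
        · rw [Finset.mem_biUnion] at hx
          obtain ⟨k, -, hx⟩ := hx
          obtain ⟨t, ht, rfl⟩ := Finset.mem_image.1 hx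
          exact hwT k t ht
      | algebraMap c => exact DivVal.Ge.const w c
      | add x y _ _ hx hy => exact hx.add hy
      | mul x y _ _ hx hy => exact hx.mul_left hy
    rcases h1 with h1 | h1
    · rw [h1, w.ord_zero]
    · exact h1

/-- **UNI**: a relation between the orders of ideals which holds for all divisors whose centre
contains `x` holds in a neighbourhood. -/
theorem t_UNI (hLOC : Stmt_LOC) (X : Germ n) {κ : Type} [Fintype κ] (I : κ → Ideal X.R)
    (c : κ → ℝ) (hI : ∀ k, I k ≠ ⊥)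
    (h : ∀ w : DivVal n X.K, X.Through w → ∑ k, c k * idealOrd w (I k) = 0) :
    ∃ g : X.R, g ∉ X.m ∧ ∀ w : DivVal n X.K, Near X g w → ∑ k, c k * idealOrd w (I k) = 0 := by
  classical
  have hN : IsNoetherianRing X.R := DIV.noeth X
  choose T hT using fun k => (isNoetherianRing_iff_ideal_fg X.R).1 hN (I k)
  let N : κ → Finset X.R := fun k => (T k).filter fun t => t ≠ 0
  have hNne : ∀ k, (N k).Nonempty := by
    intro k
    by_contra hc
    rw [Finset.not_nonempty_iff_eq_empty, Finset.filter_eq_empty_iff] at hc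
    apply hI k
    rw [← hT k, Ideal.span_eq_bot]
    intro t ht
    by_contra h0
    exact hc ht h0
  -- the function on a chart
  have key : ∀ σ : ∀ k, {t : X.R // t ∈ N k}, ∃ g : X.R, g ∉ X.m ∧ ∀ w : DivVal n X.K,
      Near X g w → (∀ k, ∀ t ∈ T k, w.Ge (w.ord ((σ k).1 : X.K)) (t : X.K)) →
      ∑ k, c k * w.ord ((σ k).1 : X.K) = 0 := by
    intro σ
    have hσ0 : ∀ k, ((σ k).1 : X.K) ≠ 0 := fun k h0 =>
      (Finset.mem_filter.1 (σ k).2).2 (Subtype.ext h0)
    obtain ⟨S, hfg, hfr, hn, hXS, hTS, hSw⟩ := exists_chart X T fun k => (σ k).1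
    obtain ⟨q, l, H, hH0, hli, hsum⟩ := RED.lin_comb (n := n)
      (fun k => ((σ k).1 : X.K)) c hσ0
    have hz : ∀ w : DivVal n X.K, (∀ a ∈ S, 0 ≤ w.ord a) → X.Through w → ∀ j, w.ord (H j) = 0 := by
      intro w hw hT'
      refine hli _ ?_
      rw [← hsum w, ← h w hT']
      refine Finset.sum_congr rfl fun k _ => ?_
      rw [idealOrd_gens w hT'.1 (I k) (T k) (hT k) (σ k).1 (Finset.mem_filter.1 (σ k).2).1
        (Finset.mem_filter.1 (σ k).2).2 fun t ht => ?_]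
      have h1 : w.Ge 0 ((t : X.K) / ((σ k).1 : X.K)) := DivVal.Ge.of_le (hw _ (hTS k t ht))
      have h2 := h1.mul (DivVal.Ge.self w ((σ k).1 : X.K))
      rwa [zero_add, div_mul_cancel₀ _ (hσ0 k)] at h2
    choose g1 hg1 hg1' using fun j => chart_near hLOC X S hfg hfr hn hXS (H j)
      fun w hw hT' => (hz w hw hT' j).ge
    choose g2 hg2 hg2' using fun j => chart_near hLOC X S hfg hfr hn hXS (H j)⁻¹
      fun w hw hT' => by rw [DivVal.ord_inv, hz w hw hT' j, neg_zero]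
    obtain ⟨h1, h2⟩ := LSCM.near_prod Finset.univ (fun j => g1 j * g2 j)
      fun j _ => mul_notMem (hg1 j) (hg2 j)
    refine ⟨∏ j, g1 j * g2 j, h1, fun w hw hwT => ?_⟩
    have hwS : ∀ a ∈ S, 0 ≤ w.ord a := hSw w hw.1 fun k t ht => by
      have h3 := (hwT k t ht).div ((σ k).1 : X.K)
      rwa [sub_self] at h3
    rw [hsum w]
    refine Finset.sum_eq_zero fun j _ => ?_
    obtain ⟨h3, h4⟩ := near_mul (hg1 j) (hg2 j) (h2 w hw j (Finset.mem_univ j))
    have h5 := hg1' j w hwS h3.2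
    have h6 := hg2' j w hwS h4.2
    rw [DivVal.ord_inv] at h6
    have h7 : w.ord (H j) = 0 := by omega
    rw [h7]
    simp
  choose g hg hg' using key
  obtain ⟨h1, h2⟩ := LSCM.near_prod Finset.univ g fun σ _ => hg σ
  refine ⟨∏ σ, g σ, h1, fun w hw => ?_⟩
  have hmin : ∀ k, ∃ t : {t : X.R // t ∈ N k}, ∀ t' ∈ N k, w.ord (t.1 : X.K) ≤ w.ord (t' : X.K) := by
    intro k
    obtain ⟨t, ht, ht'⟩ := Finset.exists_min_image (N k) (fun t : X.R => w.ord (t : X.K)) (hNne k)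
    exact ⟨⟨t, ht⟩, ht'⟩
  choose σ hσ using hmin
  have hge : ∀ k, ∀ t ∈ T k, w.Ge (w.ord ((σ k).1 : X.K)) (t : X.K) := by
    intro k t ht
    by_cases h0 : t = 0
    · rw [h0]
      exact Or.inl rfl
    · exact DivVal.Ge.of_le (hσ k t (Finset.mem_filter.2 ⟨ht, h0⟩))
  rw [← hg' σ w (h2 w hw σ (Finset.mem_univ σ)) hge]
  refine Finset.sum_congr rfl fun k _ => ?_
  rw [idealOrd_gens w hw.1 (I k) (T k) (hT k) (σ k).1 (Finset.mem_filter.1 (σ k).2).1
    (Finset.mem_filter.1 (σ k).2).2 (hge k)]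

end

end LSQ
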