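import Pool.Agent.LSQ.NearQ
import Pool.Agent.LSQ.DataQ
import Pool.Agent.LSQ.UNI

/-!
# LSQ: lower semicontinuity near `y` for quotients by finite groups, final form
-/

set_option autoImplicit false

namespace LSQ

open MldGeo NDQ LSCM UNC

noncomputable section

variable {n : ℕ} {X Y : Germ n}

/-- The order of the ideal generated by the pullbacks. -/
theorem idealOrd_map {G : Subgroup (X.K ≃ₐ[ℂ] X.K)} {π : Y.K →ₐ[ℂ] X.K} (hq : IsQuot X Y G π)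
    {w : DivVal n X.K} {v : DivVal n Y.K} {e : ℕ} (hw : ∀ a : X.R, 0 ≤ w.ord a)
    (ho : Over π w v e) (I' : Ideal Y.R) (h0 : I' ≠ ⊥) :
    idealOrd w (I'.map (resA hq)) = e * idealOrd v I' := by
  have he : (0 : ℤ) < e := by exact_mod_cast ho.1
  have hv : ∀ b : Y.R, 0 ≤ v.ord b := nonneg_over hq ho hw
  obtain ⟨b0, hb0, hb00⟩ := Submodule.exists_mem_ne_zero_of_ne_bot h0
  set SJ : Set ℤ := {k : ℤ | ∃ a ∈ I', a ≠ 0 ∧ v.ord (a : Y.K) = k} with hSJ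
  have hJne : SJ.Nonempty := ⟨v.ord (b0 : Y.K), b0, hb0, hb00, rfl⟩
  have hJb : BddBelow SJ := by
    refine ⟨0, ?_⟩
    rintro k ⟨a, _, _, rfl⟩
    exact hv a
  obtain ⟨b1, hb1, hb10, hk1⟩ := Int.csInf_mem hJne hJb
  have hne : ∀ b : Y.R, b ≠ 0 → resA hq b ≠ 0 := by
    intro b hb h
    apply hb
    apply Subtype.ext
    have h1 : π b = 0 := congrArg Subtype.val h
    exact (map_eq_zero π).1 h1
  have hlo : ∀ a ∈ I'.map (resA hq), w.Ge (e * sInf SJ) (a : X.K) := by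
    intro a ha
    refine ge_span w hw _ (resA hq '' I') ?_ a ha
    rintro _ ⟨b, hb, rfl⟩
    rw [resA_coe]
    by_cases hb0 : b = 0
    · left
      rw [hb0]
      exact map_zero π
    · right
      rw [ho.2]
      exact mul_le_mul_of_nonneg_left (csInf_le hJb ⟨b, hb, hb0, rfl⟩) he.le
  change sInf {k : ℤ | ∃ a ∈ I'.map (resA hq), a ≠ 0 ∧ w.ord (a : X.K) = k} = e * sInf SJ
  have hb1' : resA hq b1 ∈ I'.map (resA hq) := Ideal.mem_map_of_mem _ hb1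
  have hv1 : w.ord ((resA hq b1 : X.R) : X.K) = e * sInf SJ := by
    rw [resA_coe, ho.2, hk1]
  apply le_antisymm
  · refine csInf_le ⟨e * sInf SJ, ?_⟩ ⟨resA hq b1, hb1', hne b1 hb10, hv1⟩
    rintro _ ⟨a, ha, ha0, rfl⟩
    exact (hlo a ha).le fun h => ha0 (Subtype.ext h)
  · refine le_csInf ⟨_, resA hq b1, hb1', hne b1 hb10, rfl⟩ ?_
    rintro _ ⟨a, ha, ha0, rfl⟩
    exact (hlo a ha).le fun h => ha0 (Subtype.ext h)

/-- The relation for the ideals of a crepant pullback holds in a neighbourhood. -/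
theorem idrel_near (hLOC : Stmt_LOC) (hQG : Stmt_QGAL) (G : Subgroup (X.K ≃ₐ[ℂ] X.K))
    (π : Y.K →ₐ[ℂ] X.K) (T : Triple X) (T' : Triple Y) (hn : 0 < n) (hQ : IsQuot X Y G π)
    (hC : Crepant π T T') :
    ∃ F : X.R, F ∉ X.m ∧ ∀ (w : DivVal n X.K) (v : DivVal n Y.K) (e : ℕ), Near X F w →
      Over π w v e →
      ∑ j, T.r j * idealOrd w (T.a j) = e * ∑ i, T'.r i * idealOrd v (T'.a i) := by
  let I : T.J ⊕ T'.J → Ideal X.R := Sum.elim T.a fun i => (T'.a i).map (resA hQ)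
  let c : T.J ⊕ T'.J → ℝ := Sum.elim T.r fun i => -T'.r i
  have hI : ∀ k, I k ≠ ⊥ := by
    rintro (j | i)
    · exact T.a_ne j
    · obtain ⟨b, hb, hb0⟩ := Submodule.exists_mem_ne_zero_of_ne_bot (T'.a_ne i)
      intro h
      have h1 : resA hQ b ∈ (T'.a i).map (resA hQ) := Ideal.mem_map_of_mem _ hb
      have h2 : (T'.a i).map (resA hQ) = ⊥ := h
      rw [h2, Ideal.mem_bot] at h1
      apply hb0
      apply Subtype.ext
      have h3 : π b = 0 := congrArg Subtype.val h1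
      exact (map_eq_zero π).1 h3
  have hsum : ∀ (w : DivVal n X.K) (v : DivVal n Y.K) (e : ℕ), (∀ a : X.R, 0 ≤ w.ord a) →
      Over π w v e → ∑ k, c k * (idealOrd w (I k) : ℝ) =
        ∑ j, T.r j * (idealOrd w (T.a j) : ℝ) - e * ∑ i, T'.r i * (idealOrd v (T'.a i) : ℝ) := by
    intro w v e hw ho
    rw [Fintype.sum_sum_type, sub_eq_add_neg, Finset.mul_sum, ← Finset.sum_neg_distrib]
    refine congrArg₂ (· + ·) rfl (Finset.sum_congr rfl fun i _ => ?_)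
    show -T'.r i * (idealOrd w ((T'.a i).map (resA hQ)) : ℝ) = _
    rw [idealOrd_map hQ hw ho (T'.a i) (T'.a_ne i)]
    push_cast
    ring
  obtain ⟨F, hF, h⟩ := t_UNI hLOC X I c hI fun w hw => by
    obtain ⟨v, e, ho⟩ := (hQG X Y G π hn hQ).1 w
    rw [hsum w v e hw.1 ho, hC.ideals w v e hw ho, sub_self]
  refine ⟨F, hF, fun w v e hw ho => ?_⟩
  have h1 := h w hw
  rw [hsum w v e hw.1 ho] at h1
  linarith

/-- The log discrepancies of a crepant pullback in a neighbourhood. -/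
theorem crepant_near (hLOC : Stmt_LOC) (hLDN : Stmt_LDN) (hFSM : Stmt_FSM) (I : Inp)
    (G : Subgroup (X.K ≃ₐ[ℂ] X.K)) (π : Y.K →ₐ[ℂ] X.K) (T : Triple X) (T' : Triple Y)
    (hn : 0 < n) (hQ : IsQuot X Y G π) (hC : Crepant π T T') :
    ∃ F : X.R, F ∉ X.m ∧ ∀ (w : DivVal n X.K) (v : DivVal n Y.K) (e : ℕ), Near X F w →
      Over π w v e → T.disc w = e * T'.disc v := by
  obtain ⟨F1, hF1, h1⟩ := ld_near hLDN hFSM I G π T T' hn hQ hC
  obtain ⟨F2, hF2, h2⟩ := idrel_near hLOC I.QGAL G π T T' hn hQ hC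
  refine ⟨F1 * F2, mul_notMem hF1 hF2, fun w v e hw ho => ?_⟩
  obtain ⟨hw1, hw2⟩ := near_mul hF1 hF2 hw
  unfold Triple.disc
  rw [h1 w v e hw1 ho, h2 w v e hw2 ho]
  ring

/-- LSQ: lower semicontinuity in a neighbourhood for quotients, final form. -/
theorem main_final (I : Inp) (hLOC : Stmt_LOC) (hLDN : Stmt_LDN) (hFSM : Stmt_FSM)
    (hL : Stmt_LSN) {n : ℕ} {X Y : Germ n} (G : Subgroup (X.K ≃ₐ[ℂ] X.K)) (π : Y.K →ₐ[ℂ] X.K)
    (T : Triple X) (T' : Triple Y) (hQ : IsQuot X Y G π) (hC : Crepant π T T') (hLC : T.LC)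
    (hE : T.Effective)
    (hG : ∀ g ∈ G, ∃ (m : ℕ) (A : MldG.TorusAction X m), n ≤ m + 1 ∧ A.InvTriple T ∧ Comm A g) :
    AmbN T' ∧ T'.mld ≤ n := by
  rcases Nat.eq_zero_or_pos n with hn | hn
  · subst hn
    refine ⟨⟨1, (Ideal.ne_top_iff_one _).1 Y.max.ne_top, fun v _ _ _ => (no_val v).elim⟩, ?_⟩
    have h1 : {a : ℝ | ∃ v, Y.At v ∧ T'.disc v = a} = ∅ := by
      refine Set.eq_empty_iff_forall_notMem.2 fun a => ?_
      rintro ⟨v, -, -⟩
      exact no_val v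
    unfold Triple.mld
    rw [h1, Real.sInf_empty]
    simp
  obtain ⟨hy1, hy2, hy3, -⟩ := I.QGAL X Y G π hn hQ
  have : Finite G := hQ.finite
  have hft : Fintype G := Fintype.ofFinite G
  obtain ⟨F0, hF0, hd0⟩ := crepant_near hLOC hLDN hFSM I G π T T' hn hQ hC
  -- the contribution of `g`
  have hP : ∀ g : G, (∃ F : X.R, F ∉ X.m ∧ ∀ (w : DivVal n X.K) (v : DivVal n Y.K) (e : ℕ),
      Near X F w → Over π w v e → (∀ a : X.K, a ≠ 0 → w.Ge (w.ord a + 1)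
        ((g : X.K ≃ₐ[ℂ] X.K) a - algebraMap ℂ X.K
          (Complex.exp (2 * Real.pi * Complex.I * w.ord a / e)) * a)) →
      ∀ d : ℕ, DimLE X w d → T'.mld ≤ T'.disc v + d) ∧ T'.mld ≤ n := by
    rintro ⟨g, hg⟩
    obtain ⟨m, A, hm, hA, hc⟩ := hG g hg
    obtain ⟨Z, ι, TZ, B, hQZ, hCZ, hB, hEZ, hLCZ⟩ :=
      data' I G π T T' hn hQ hC hLC g hg hE A hA hc
    obtain ⟨F1, hF1, hd1⟩ := crepant_near hLOC hLDN hFSM I _ ι T TZ hn hQZ hCZ
    obtain ⟨⟨f, hf, hZ⟩, hZn⟩ := hL B TZ hm hB hEZ hLCZ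
    have hle' : T'.mld ≤ TZ.mld := mld_le' I G π ι T T' TZ hn hQ hC hLC g hg hQZ hCZ hLCZ
    have hF2 : resA hQZ f ∉ X.m := fun h => hf ((hQZ.mem_m f (resA hQZ f) rfl).2 h)
    refine ⟨⟨F0 * (F1 * resA hQZ f), mul_notMem hF0 (mul_notMem hF1 hF2), ?_⟩, hle'.trans hZn⟩
    intro w v e hw ho hg2 d hd
    obtain ⟨hw0, hw'⟩ := near_mul hF0 (mul_notMem hF1 hF2) hw
    obtain ⟨hw1, hw2⟩ := near_mul hF1 hF2 hw'
    obtain ⟨z, ez, hoz⟩ := (I.QGAL X Z _ ι hn hQZ).1 w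
    have hez : (0 : ℤ) < ez := by exact_mod_cast hoz.1
    have hz : Near Z f z := by
      refine ⟨nonneg_over hQZ hoz hw.1, ?_⟩
      have h1 := hw2.2
      rw [resA_coe, hoz.2] at h1
      rcases mul_eq_zero.1 h1 with h2 | h2
      · omega
      · exact h2
    have hfix : ∀ b : Z.K, g (ι b) = ι b := fun b =>
      (hQZ.inv (ι b)).1 ⟨b, rfl⟩ g (Subgroup.mem_zpowers g)
    have hle : Subgroup.zpowers g ≤ G := by
      rw [Subgroup.zpowers_le]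
      exact hg
    have htow : ∀ c : Y.K, ∃ b : Z.K, ι b = π c := fun c =>
      (hQZ.inv (π c)).2 fun h hh => (hQ.inv (π c)).1 ⟨c, rfl⟩ h (hle hh)
    have h3 : e = ez := Nat.dvd_antisymm
      (Int.natCast_dvd_natCast.1 (CONT_aux.dvd_of_inertia ho.1 hoz hfix hg2))
      (Int.natCast_dvd_natCast.1 (CONT_aux.dvd_of_tower hoz ho htow))
    subst h3
    have h4 := hd1 w z _ hw1 hoz
    rw [hd0 w v _ hw0 ho] at h4
    have he : (0 : ℝ) < e := by exact_mod_cast ho.1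
    rw [mul_left_cancel₀ he.ne' h4]
    exact hle'.trans (hZ z hz d (dim_down hQZ hoz hd))
  refine ⟨?_, (hP 1).2⟩
  choose F hF hF' using fun g => (hP g).1
  obtain ⟨h1, h2⟩ := near_prod Finset.univ F fun g _ => hF g
  obtain ⟨f, hf, hf'⟩ := norm_near hQ _ h1
  refine ⟨f, hf, fun v hv d hd => ?_⟩
  obtain ⟨w, e, ho⟩ := hy2 v
  have hw := hf' w v e ho hv
  obtain ⟨g, hg, -, hg2⟩ := hy3 w v e ho
  exact hF' ⟨g, hg⟩ w v e (h2 w hw ⟨g, hg⟩ (Finset.mem_univ _)) ho hg2 d (dim_up hQ ho hw.1 hd)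

end

end LSQ
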