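import Pool.Agent.MldX.UnBridge
import Pool.Agent.LSCM.Fin
import Pool.Agent.LSQ.FinQ
import Pool.Agent.UNC.All

/-!
# LSQ: lower semicontinuity for quotients in terms of the definitions `MldX`
-/

set_option autoImplicit false

namespace LSQ

open MldGeo NDQ UNC in
/-- The geometric input. -/
theorem inp : Inp where
  TBAS := t_TBAS
  FRM := LSCM.c_FRM
  TXT := LSCM.c_TXT
  QGAL := t_QGAL t_EXR t_EXT t_INE (t_EXF t_FRA t_TBAS LSCM.c_LOGD LSCM.c_FRM LSCM.c_FSM)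
  QAT := t_QAT
  QPUL := t_PULQ (t_QGAL t_EXR t_EXT t_INE (t_EXF t_FRA t_TBAS LSCM.c_LOGD LSCM.c_FRM LSCM.c_FSM))
    (t_UNQ LSCM.c_LOC) LSCM.c_TXT LSCM.c_FSM t_TBAS
  EXQ := t_EXQ
  FGI := t_FGI
  LAT := t_LAT
  TAZ := t_TAZ
  THT := t_THT
  PRM := t_PRM
  NIN := t_NIN
  RAM := t_RAM
  TRI := t_TRI
  TRZ := t_TRZ
  EFC := t_EFC
  CON := UNC.t_CON

end LSQ

namespace MldX

variable {n : ℕ} {X Y : Germ n}

/-- quotients by finite groups -/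
theorem semicontinuity_quot (X Y : Germ n) (G : Subgroup X.Aut) (π : Map X Y) (T : Triple X)
    (T' : Triple Y) (hQ : IsQuot G π) (hC : Crepant π T T') (hL : T.LC) (hE : T.Effective)
    (hG : ∀ g ∈ G, ∃ (m : ℕ) (A : TorusAction X m), n ≤ m + 1 ∧ (∀ u, A.MapsTo g u u) ∧
      A.InvTriple T) :
    T'.mldAlong Y.m = T'.mld ∧ T'.mld ≤ n ∧ ∃ f : Y.R, f ∉ Y.m ∧
      (∀ P : Ideal Y.R, P.IsMaximal → f ∉ P → T'.mld ≤ T'.mldAlong P) ∧
      ∀ (P : Ideal Y.R) (d : ℕ), P.IsPrime → f ∉ P → Algebra.trdeg ℂ (Y.R ⧸ P) = d →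
        T'.mld ≤ T'.mldAlong P + d ∧ ∀ v, Y.HasCentre v P → T'.mld ≤ T'.disc v + d := by
  obtain ⟨h1, h2⟩ := LSQ.main_final LSQ.inp LSCM.c_LOC LSCM.c_LDN LSCM.c_FSM LSCM.lsn G π T.old
    T'.old hQ.old hC.old (T.old_lc.2 hL) (T.old_effective.2 hE) fun g hg => by
      obtain ⟨m, A, hm, hg, hI⟩ := hG g hg
      refine ⟨m, A.old, hm, (A.old_invTriple T).2 hI, fun u a b ha hb => ?_⟩
      refine (weight_iff A u b).1 ?_
      rw [hb]
      exact hg u a ((weight_iff A u a).2 ha)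
  exact form_of_ambN Y T' h1 h2

end MldX
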