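import Pool.Agent.LSQ.Bridge
import Pool.Agent.UNC.Cert

/-!
# LSQ: the case `G = 1` of the theorem on quotients
-/

set_option autoImplicit false

namespace MldX

/-- Torus actions of complexity at most one: the case `G = 1` of `semicontinuity_quot`. -/
theorem semicontinuity_of_quot {n m : ℕ} (X : Germ n) (A : TorusAction X m) (hm : n ≤ m + 1)
    (T : Triple X) (hI : A.InvTriple T) (hE : T.Effective) (hL : T.LC) :
    T.mldAlong X.m = T.mld ∧ T.mld ≤ n ∧ ∃ f : X.R, f ∉ X.m ∧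
      (∀ P : Ideal X.R, P.IsMaximal → f ∉ P → T.mld ≤ T.mldAlong P) ∧
      ∀ (P : Ideal X.R) (d : ℕ), P.IsPrime → f ∉ P → Algebra.trdeg ℂ (X.R ⧸ P) = d →
        T.mld ≤ T.mldAlong P + d ∧ ∀ v, X.HasCentre v P → T.mld ≤ T.disc v + d := by
  refine semicontinuity_quot X X ⊥ (AlgHom.id ℂ X.K) T T (isQuot_bot X) (crepant_self T) hL hE
    fun g hg => ⟨m, A, hm, fun u a ha => ?_, hI⟩
  rw [Subgroup.mem_bot.1 hg]
  exact ha

end MldX
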