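import Pool.Agent.LSCM.StD
import Pool.Agent.MldG.KUV
import Pool.Agent.UNC.PRM

/-!
# DMQ: dimensions of centres on finite quotients

Project LSQ: lower semicontinuity for quotients by finite groups.
-/

set_option autoImplicit false

namespace LSQ

open MldGeo NDQ LSCM MvPolynomial UNC

noncomputable section

variable {n : ℕ} {X Y Z : Germ n}

/-- the inclusion of the rings of regular functions -/
def resA {G : Subgroup (X.K ≃ₐ[ℂ] X.K)} {π : Y.K →ₐ[ℂ] X.K} (hq : IsQuot X Y G π) :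
    Y.R →ₐ[ℂ] X.R :=
  { UNC.PRM_aux.res hq with
    commutes' := fun c => Subtype.ext (π.commutes c) }

theorem resA_coe {G : Subgroup (X.K ≃ₐ[ℂ] X.K)} {π : Y.K →ₐ[ℂ] X.K} (hq : IsQuot X Y G π)
    (b : Y.R) : ((resA hq b : X.R) : X.K) = π b := rfl

theorem resA_integral {G : Subgroup (X.K ≃ₐ[ℂ] X.K)} {π : Y.K →ₐ[ℂ] X.K} (hq : IsQuot X Y G π) :
    (resA hq).toRingHom.IsIntegral := UNC.PRM_aux.res_integral hq

/-- Valuations over valuations with a centre have a centre. -/
theorem nonneg_over {G : Subgroup (X.K ≃ₐ[ℂ] X.K)} {π : Y.K →ₐ[ℂ] X.K} (hq : IsQuot X Y G π)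
    {w : DivVal n X.K} {v : DivVal n Y.K} {e : ℕ} (ho : Over π w v e)
    (hw : ∀ a : X.R, 0 ≤ w.ord a) (b : Y.R) : 0 ≤ v.ord b := by
  have h1 := hw (resA hq b)
  rw [resA_coe, ho.2] at h1
  have he : (0 : ℤ) < e := by exact_mod_cast ho.1
  exact nonneg_of_mul_nonneg_right h1 he

/-- Going up: the dimension of the centre of `w` is at most the one of the centre of `v`. -/
theorem dim_up {G : Subgroup (X.K ≃ₐ[ℂ] X.K)} {π : Y.K →ₐ[ℂ] X.K} (hq : IsQuot X Y G π)
    {w : DivVal n X.K} {v : DivVal n Y.K} {e : ℕ} (ho : Over π w v e)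
    (hw : ∀ a : X.R, 0 ≤ w.ord a) {d : ℕ} (hd : DimLE Y v d) : DimLE X w d := by
  intro r hr
  by_contra hcon
  push Not at hcon
  let u : Fin (d + 1) → X.R := fun i => ⟨r i, hr i⟩
  have hval : ∀ q : MvPolynomial (Fin (d + 1)) ℂ,
      ((aeval u q : X.R) : X.K) = aeval r q := by
    intro q
    exact MvPolynomial.comp_aeval_apply (R := ℂ) (f := u) X.R.val q
  have : (HT1.centre X w hw).IsPrime := HT1.centre_prime X w hw
  obtain ⟨x, hx⟩ := MldG.KUV.exists_indep (resA hq) (resA_integral hq) (HT1.centre X w hw) u (by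
    intro q hq h1
    rw [HT1.mem_centre] at h1
    obtain ⟨h2, h3⟩ := hcon q hq
    rcases h1 with h1 | h1
    · apply h2
      rw [← hval, h1]
      rfl
    · rw [hval] at h1
      exact absurd h1 (not_lt.2 h3))
  obtain ⟨q, hq', hq2⟩ := hd (fun i => (x i : Y.K)) fun i => (x i).2
  apply hx q hq'
  rw [HT1.mem_centre]
  have hval' : ((aeval x q : Y.R) : Y.K) = aeval (fun i => (x i : Y.K)) q :=
    MvPolynomial.comp_aeval_apply (R := ℂ) (f := x) Y.R.val q
  rcases hq2 with h1 | h1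
  · left
    have h2 : (aeval x q : Y.R) = 0 := Subtype.ext (by rw [hval', h1]; rfl)
    rw [h2, map_zero]
  · right
    rw [resA_coe, ho.2, hval']
    have he : (0 : ℤ) < e := by exact_mod_cast ho.1
    exact mul_pos he h1

/-- Going down: the dimension of the centre of `z` is at most the one of the centre of `w`. -/
theorem dim_down {H : Subgroup (X.K ≃ₐ[ℂ] X.K)} {ι : Z.K →ₐ[ℂ] X.K} (hq : IsQuot X Z H ι)
    {w : DivVal n X.K} {z : DivVal n Z.K} {e : ℕ} (ho : Over ι w z e)
    {d : ℕ} (hd : DimLE X w d) : DimLE Z z d := by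
  intro r hr
  obtain ⟨p, hp, h⟩ := hd (fun i => ι (r i)) fun i => (hq.mem_R _).1 (hr i)
  have h1 : aeval (fun i => ι (r i)) p = ι (aeval r p) :=
    (MvPolynomial.comp_aeval_apply (R := ℂ) (f := r) ι p).symm
  refine ⟨p, hp, ?_⟩
  rw [h1] at h
  rcases h with h | h
  · left
    exact (map_eq_zero ι).1 h
  · right
    rw [ho.2] at h
    have he : (0 : ℤ) < e := by exact_mod_cast ho.1
    exact (mul_pos_iff_of_pos_left he).1 h

end

end LSQ
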