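import Pool.Agent.LSQ.DMQ
import Pool.Agent.UNC.CONT

/-!
# LSQ: lower semicontinuity for quotients by finite groups

`Y = X / G`, every `g ∈ G` commutes with a torus of dimension at least `n - 1` which respects the triple.
-/

set_option autoImplicit false

namespace LSQ

open MldGeo NDQ LSCM UNC

noncomputable section

/-- every `g ∈ G` commutes with a torus of dimension at least `n - 1` which respects the triple, and
the ideals are generated by functions which are invariant under `g` -/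
def CommAll {n : ℕ} {X : Germ n} (G : Subgroup (X.K ≃ₐ[ℂ] X.K)) (T : Triple X) : Prop :=
  ∀ g ∈ G, ∃ (m : ℕ) (A : MldG.TorusAction X m), n ≤ m + 1 ∧ A.InvTriple T ∧ Comm A g ∧
    InvGen T (Subgroup.zpowers g)

/-- The geometric input. -/
structure Inp : Prop where
  TBAS : Stmt_TBAS
  FRM : Stmt_FRM
  TXT : Stmt_TXT
  QGAL : Stmt_QGAL
  QAT : Stmt_QAT
  QPUL : Stmt_QPUL
  EXQ : S_EXQ
  FGI : S_FGI
  LAT : S_LAT
  TAZ : S_TAZ
  THT : S_THT
  PRM : S_PRM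
  NIN : S_NIN
  RAM : S_RAM
  TRI : S_TRI
  TRZ : S_TRZ
  EFC : S_EFC
  CON : S_CON

/-- The quotient by the cyclic group generated by `g`. -/
theorem data (I : Inp) {n : ℕ} {X Y : Germ n}
    (G : Subgroup (X.K ≃ₐ[ℂ] X.K)) (π : Y.K →ₐ[ℂ] X.K) (T : Triple X) (T' : Triple Y)
    (hn : 0 < n) (hQ : IsQuot X Y G π) (hC : Crepant π T T') (hLC : T.LC)
    (g : X.K ≃ₐ[ℂ] X.K) (hg : g ∈ G) (hE : T.Effective) {m : ℕ}
    (A : MldG.TorusAction X m) (hA : A.InvTriple T) (hc : Comm A g)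
    (hI : InvGen T (Subgroup.zpowers g)) :
    ∃ (Z : Germ n) (ι : Z.K →ₐ[ℂ] X.K) (TZ : Triple Z) (B : MldG.TorusAction Z m),
      IsQuot X Z (Subgroup.zpowers g) ι ∧ Crepant ι T TZ ∧ B.InvTriple TZ ∧ TZ.Effective ∧
        TZ.LC := by
  have hle : Subgroup.zpowers g ≤ G := by
    rw [Subgroup.zpowers_le]
    exact hg
  have : Finite G := hQ.finite
  have hfin : Finite (Subgroup.zpowers g) :=
    Finite.of_injective (Subgroup.inclusion hle) (Subgroup.inclusion_injective hle)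
  obtain ⟨Z, ι, hZ⟩ := I.EXQ I.FGI X (Subgroup.zpowers g) hfin
    (fun h hh => hQ.map_R h (hle hh)) (fun h hh => hQ.map_m h (hle hh))
  have hcomm : ∀ h ∈ Subgroup.zpowers g, Comm A h := by
    have h1 : ∀ k : ℕ, Comm A (g ^ k) := by
      intro k
      induction k with
      | zero =>
        intro u a b ha hb
        have h2 : b = a := Subtype.ext (by rw [hb, pow_zero]; rfl)
        rw [h2]
        exact ha
      | succ k ih =>
        intro u a b ha hb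
        rw [pow_succ'] at hb
        have h3 : (g ^ k) (a : X.K) ∈ X.R := hQ.map_R (g ^ k) (G.pow_mem hg k) a a.2
        exact hc u ⟨_, h3⟩ b (ih u a ⟨_, h3⟩ ha rfl) hb
    intro h hh
    have h4 : IsOfFinOrder g := by
      have h5 := isOfFinOrder_of_finite (⟨g, hg⟩ : G)
      exact isOfFinOrder_iff_pow_eq_one.2 ⟨orderOf (⟨g, hg⟩ : G), h5.orderOf_pos,
        congrArg Subtype.val (pow_orderOf_eq_one (⟨g, hg⟩ : G))⟩
    obtain ⟨k, rfl⟩ := (Submonoid.mem_powers_iff _ _).1 (h4.mem_powers_iff_mem_zpowers.2 hh)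
    exact h1 k
  obtain ⟨B, hB⟩ := I.TAZ I.LAT X Z (Subgroup.zpowers g) ι hZ A hcomm
  obtain ⟨TZ, φ, h1, h2, h3⟩ := I.TRZ I.QGAL I.TBAS I.FRM I.TXT I.TRI X Y Z G
    (Subgroup.zpowers g) π ι T T' hn hQ hC hZ hle hI
  obtain ⟨h4, h5, h6, -⟩ := I.EFC I.QGAL I.QPUL I.THT I.PRM I.NIN I.RAM X Z (Subgroup.zpowers g) ι
    T TZ φ Set.univ hn hZ h3 h1 h2 A B hcomm hB hA hE hLC
    ⟨fun _ _ _ _ => trivial, fun _ _ => trivial⟩
  exact ⟨Z, ι, TZ, B, hZ, h3, h4, h5, h6⟩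

/-- There are no divisorial valuations in dimension zero. -/
theorem no_val {X : Germ 0} (v : DivVal 0 X.K) : False := by
  obtain ⟨b, hb0, hb1⟩ := v.unif
  have h1 : Algebra.trdeg ℂ X.K = 0 := by
    have := X.trdeg
    simpa using this
  have h2 : Algebra.IsAlgebraic ℂ X.K := by
    exact trdeg_eq_zero_iff.1 h1
  have h4 := IsAlgClosed.algebraMap_bijective_of_isIntegral (k := ℂ) (K := X.K)
  obtain ⟨c, rfl⟩ := h4.2 b
  rw [v.ord_const] at hb1
  exact zero_ne_one hb1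

/-- The discrepancies on the quotient are nonnegative. -/
theorem disc_nonneg (I : Inp) {n : ℕ} {X Y : Germ n}
    (G : Subgroup (X.K ≃ₐ[ℂ] X.K)) (π : Y.K →ₐ[ℂ] X.K) (T : Triple X) (T' : Triple Y)
    (hn : 0 < n) (hQ : IsQuot X Y G π) (hC : Crepant π T T') (hLC : T.LC) : T'.LC := by
  intro v hv
  obtain ⟨w, e, ho⟩ := (I.QGAL X Y G π hn hQ).2.1 v
  have hw : X.Through w := ((I.THT X Y G π hQ).1 w v e ho).2 hv
  have h1 := hLC w hw
  rw [CONT_aux.disc_over I.QPUL hn hQ hC hw ho] at h1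
  have he : (0 : ℝ) < e := by exact_mod_cast ho.1
  exact nonneg_of_mul_nonneg_right h1 he

/-- The minimal log discrepancy of `Y` is at most the one of `X / ⟨g⟩`. -/
theorem mld_le (I : Inp) {n : ℕ} {X Y Z : Germ n}
    (G : Subgroup (X.K ≃ₐ[ℂ] X.K)) (π : Y.K →ₐ[ℂ] X.K) (ι : Z.K →ₐ[ℂ] X.K) (T : Triple X)
    (T' : Triple Y) (TZ : Triple Z) (hn : 0 < n) (hQ : IsQuot X Y G π) (hC : Crepant π T T')
    (hLC : T.LC) (g : X.K ≃ₐ[ℂ] X.K) (hg : g ∈ G) (hQZ : IsQuot X Z (Subgroup.zpowers g) ι)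
    (hCZ : Crepant ι T TZ) (hat : ∃ v, Y.At v) : T'.mld ≤ TZ.mld := by
  have h1 := (I.CON I.QGAL I.QAT I.QPUL I.THT X Y Z G π ι T T' TZ hn hQ hC hLC g hg hQZ hCZ
    hat).2
  have hLC' := disc_nonneg I G π T T' hn hQ hC hLC
  refine le_of_forall_pos_lt_add fun ε hε => ?_
  obtain ⟨v, hv, hlt⟩ := h1 ε hε
  refine lt_of_le_of_lt (csInf_le ⟨0, ?_⟩ ⟨v, hv, rfl⟩) hlt
  rintro _ ⟨v', hv', rfl⟩
  obtain ⟨w, e, ho⟩ := (I.QGAL X Y G π hn hQ).2.1 v'
  have hw := (I.QAT X Y G π hQ w v' e ho).2 hv'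
  exact hLC' v' (((I.THT X Y G π hQ).1 w v' e ho).1 ((I.THT X Y G π hQ).2 w hw))

/-- LSQ: lower semicontinuity for quotients. -/
theorem main (I : Inp) (hL : Stmt_LSC) {n : ℕ} {X Y : Germ n}
    (G : Subgroup (X.K ≃ₐ[ℂ] X.K)) (π : Y.K →ₐ[ℂ] X.K) (T : Triple X) (T' : Triple Y)
    (hQ : IsQuot X Y G π) (hC : Crepant π T T') (hLC : T.LC) (hE : T.Effective)
    (hG : CommAll G T) : Amb T' ∧ T'.mld ≤ n := by
  rcases Nat.eq_zero_or_pos n with hn | hn
  · subst hn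
    refine ⟨fun v _ _ _ => (no_val v).elim, ?_⟩
    have h1 : {a : ℝ | ∃ v, Y.At v ∧ T'.disc v = a} = ∅ := by
      ext a
      simp only [Set.mem_setOf_eq, Set.mem_empty_iff_false, iff_false]
      rintro ⟨v, -, -⟩
      exact no_val v
    unfold Triple.mld
    rw [h1, Real.sInf_empty]
    simp
  have hLC' := disc_nonneg I G π T T' hn hQ hC hLC
  by_cases hat : ∃ v, Y.At v
  swap
  · have h0 : T'.mld = 0 := by
      have h1 : {a : ℝ | ∃ v, Y.At v ∧ T'.disc v = a} = ∅ := by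
        ext a
        simp only [Set.mem_setOf_eq, Set.mem_empty_iff_false, iff_false]
        rintro ⟨v, hv, -⟩
        exact hat ⟨v, hv⟩
      unfold Triple.mld
      rw [h1, Real.sInf_empty]
    rw [h0]
    refine ⟨fun v hv d _ => ?_, Nat.cast_nonneg n⟩
    rw [h0]
    exact add_nonneg (hLC' v hv) (Nat.cast_nonneg d)
  constructor
  · intro v hv d hd
    obtain ⟨w, e, ho⟩ := (I.QGAL X Y G π hn hQ).2.1 v
    have hw : X.Through w := ((I.THT X Y G π hQ).1 w v e ho).2 hv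
    obtain ⟨g, hg, -, hg2⟩ := (I.QGAL X Y G π hn hQ).2.2.1 w v e ho
    obtain ⟨m, A, hm, hA, hc, hI⟩ := hG g hg
    obtain ⟨Z, ι, TZ, B, hQZ, hCZ, hB, hEZ, hLCZ⟩ :=
      data I G π T T' hn hQ hC hLC g hg hE A hA hc hI
    obtain ⟨z, ez, hoz⟩ := (I.QGAL X Z _ ι hn hQZ).1 w
    have hz : Z.Through z := ((I.THT X Z _ ι hQZ).1 w z ez hoz).1 hw
    have hfix : ∀ b : Z.K, g (ι b) = ι b := fun b =>
      (hQZ.inv (ι b)).1 ⟨b, rfl⟩ g (Subgroup.mem_zpowers g)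
    have hle : Subgroup.zpowers g ≤ G := by
      rw [Subgroup.zpowers_le]
      exact hg
    have htow : ∀ c : Y.K, ∃ b : Z.K, ι b = π c := fun c =>
      (hQZ.inv (π c)).2 fun h hh => (hQ.inv (π c)).1 ⟨c, rfl⟩ h (hle hh)
    have h3 : e = ez := Nat.dvd_antisymm
      (Int.natCast_dvd_natCast.1 (CONT_aux.dvd_of_inertia ho.1 hoz hfix hg2))
      (Int.natCast_dvd_natCast.1 (CONT_aux.dvd_of_tower hoz ho htow))
    subst h3
    have h4 := CONT_aux.disc_over I.QPUL hn hQZ hCZ hw hoz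
    rw [CONT_aux.disc_over I.QPUL hn hQ hC hw ho] at h4
    have he : (0 : ℝ) < e := by exact_mod_cast ho.1
    rw [mul_left_cancel₀ he.ne' h4]
    exact (mld_le I G π ι T T' TZ hn hQ hC hLC g hg hQZ hCZ hat).trans
      ((hL B TZ hm hB hEZ hLCZ).1 z hz d (dim_down hQZ hoz (dim_up hQ ho hw.1 hd)))
  · obtain ⟨m, A, hm, hA, hc, hI⟩ := hG 1 G.one_mem
    obtain ⟨Z, ι, TZ, B, hQZ, hCZ, hB, hEZ, hLCZ⟩ :=
      data I G π T T' hn hQ hC hLC 1 G.one_mem hE A hA hc hI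
    exact (mld_le I G π ι T T' TZ hn hQ hC hLC 1 G.one_mem hQZ hCZ hat).trans
      (hL B TZ hm hB hEZ hLCZ).2

end

end LSQ
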