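import Pool.Agent.UNC.St

/-!
# LSQ, module NRG: norm ideals

Let `H` be a finite group of automorphisms of `X`, `I = (g_1, …, g_k)`. The coefficients of the polynomial
`∏_{h ∈ H} (∑ t_j h(g_j))` in `t_1, …, t_k` generate an ideal `N(I)`; they are invariant under `H`, and
`w(N(I)) = ∑_{h ∈ H} (w ∘ h)(I)` for all valuations `w ≥ 0` on the regular functions.
-/

set_option autoImplicit false

namespace LSQ

open MldGeo NDQ UNC

noncomputable section

namespace NRG

variable {n : ℕ} {X : Germ n}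

/-! ### orders of ideals -/

theorem coe_ne {a : X.R} (h : a ≠ 0) : (a : X.K) ≠ 0 := fun h0 => h (Subtype.ext h0)

theorem idealOrd_le {w : DivVal n X.K} (hw : ∀ a : X.R, 0 ≤ w.ord a) {I : Ideal X.R} {a : X.R}
    (ha : a ∈ I) (h0 : a ≠ 0) : idealOrd w I ≤ w.ord (a : X.K) :=
  csInf_le ⟨0, by rintro _ ⟨b, -, -, rfl⟩; exact hw b⟩ ⟨a, ha, h0, rfl⟩

theorem exists_idealOrd {w : DivVal n X.K} (hw : ∀ a : X.R, 0 ≤ w.ord a) {I : Ideal X.R}
    (hI : I ≠ ⊥) : ∃ a ∈ I, a ≠ 0 ∧ w.ord (a : X.K) = idealOrd w I := by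
  obtain ⟨a, ha, h0⟩ := (Submodule.ne_bot_iff _).1 hI
  exact Int.csInf_mem (s := {k : ℤ | ∃ a ∈ I, a ≠ 0 ∧ w.ord (a : X.K) = k}) ⟨_, a, ha, h0, rfl⟩
    ⟨0, by rintro _ ⟨b, -, -, rfl⟩; exact hw b⟩

theorem ge_span {w : DivVal n X.K} (hw : ∀ a : X.R, 0 ≤ w.ord a) {k : ℤ} {s : Set X.R}
    (hs : ∀ a ∈ s, w.Ge k (a : X.K)) {a : X.R} (ha : a ∈ Ideal.span s) : w.Ge k (a : X.K) := by
  refine Submodule.span_induction (R := X.R) (M := X.R) (s := s)
    (p := fun (x : X.R) _ => w.Ge k (x : X.K)) ?_ ?_ ?_ ?_ ha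
  · exact fun x hx => hs x hx
  · exact Or.inl rfl
  · intro x y _ _ hx hy
    exact hx.add hy
  · intro c x _ hx
    exact DivVal.Ge.mul_left (Or.inr (hw c)) hx

theorem idealOrd_eq {w : DivVal n X.K} (hw : ∀ a : X.R, 0 ≤ w.ord a) {I : Ideal X.R} {k : ℤ}
    (h1 : ∀ a ∈ I, w.Ge k (a : X.K)) {b : X.R} (hb : b ∈ I) (hb0 : b ≠ 0)
    (hk : w.ord (b : X.K) ≤ k) : idealOrd w I = k := by
  obtain ⟨a, ha, ha0, hak⟩ := exists_idealOrd hw (I := I)
    (fun h => hb0 (by rw [h] at hb; exact hb))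
  refine le_antisymm ((idealOrd_le hw hb hb0).trans hk) ?_
  rw [← hak]
  exact (h1 a ha).resolve_left (coe_ne ha0)

/-! ### the norm ideal -/

variable (H : Subgroup (X.K ≃ₐ[ℂ] X.K)) (hR : ∀ h ∈ H, ∀ a ∈ X.R, h a ∈ X.R)

/-- the action on the regular functions -/
def ac (h : H) : X.R →ₐ[ℂ] X.R :=
  (((h : X.K ≃ₐ[ℂ] X.K) : X.K →ₐ[ℂ] X.K).comp X.R.val).codRestrict X.R
    (fun a => hR h h.2 a a.2)

theorem ac_coe (h : H) (a : X.R) : ((ac H hR h a : X.R) : X.K) = (h : X.K ≃ₐ[ℂ] X.K) a := rfl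

theorem ac_mul (h h' : H) (a : X.R) : ac H hR h (ac H hR h' a) = ac H hR (h * h') a := rfl

theorem ac_ne (h : H) {a : X.R} (ha : a ≠ 0) : ac H hR h a ≠ 0 := by
  intro h0
  have h1 : (h : X.K ≃ₐ[ℂ] X.K) (a : X.K) = 0 := congrArg Subtype.val h0
  exact coe_ne ha ((map_eq_zero _).1 h1)

variable [Fintype H] [DecidableEq H] {k : ℕ} (g : Fin k → X.R)

/-- a product of conjugates of the generators -/
def mono (i : H → Fin k) : X.R := ∏ h, ac H hR h (g (i h))

/-- the exponents of `t_1, …, t_k` -/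
def cnt (i : H → Fin k) : Fin k → ℕ := fun j => Fintype.card {h : H // i h = j}

/-- the coefficients -/
def sc (α : Fin k → ℕ) : X.R :=
  ∑ i ∈ Finset.univ.filter (fun i : H → Fin k => cnt H i = α), mono H hR g i

/-- the norm ideal -/
def NI : Ideal X.R := Ideal.span (Set.range (sc H hR g))

omit [DecidableEq H] in
theorem ac_mono (h : H) (i : H → Fin k) :
    ac H hR h (mono H hR g i) = mono H hR g fun h' => i (h⁻¹ * h') := by
  unfold mono
  rw [map_prod]
  refine Fintype.prod_equiv (Equiv.mulLeft h) _ _ fun h' => ?_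
  rw [ac_mul]
  simp

omit [DecidableEq H] in
theorem cnt_mul (h : H) (i : H → Fin k) : cnt H (fun h' => i (h * h')) = cnt H i := by
  funext j
  exact Fintype.card_congr (Equiv.subtypeEquiv (Equiv.mulLeft h) fun a => Iff.rfl)

theorem ac_sc (h : H) (α : Fin k → ℕ) : ac H hR h (sc H hR g α) = sc H hR g α := by
  unfold sc
  rw [map_sum]
  refine Finset.sum_bij' (fun i _ h' => i (h⁻¹ * h')) (fun i _ h' => i (h * h')) ?_ ?_ ?_ ?_ ?_
  · intro i hi
    rw [Finset.mem_filter] at hi ⊢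
    exact ⟨Finset.mem_univ _, by rw [cnt_mul]; exact hi.2⟩
  · intro i hi
    rw [Finset.mem_filter] at hi ⊢
    exact ⟨Finset.mem_univ _, by rw [cnt_mul]; exact hi.2⟩
  · intro i _
    funext h'
    simp
  · intro i _
    funext h'
    simp
  · intro i _
    rw [ac_mono]

omit [DecidableEq H] in
theorem sum_cnt {M : Type} [AddCommMonoid M] (i : H → Fin k) (u : Fin k → M) :
    ∑ h, u (i h) = ∑ j, cnt H i j • u j := by
  rw [← Fintype.sum_fiberwise i (fun h => u (i h))]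
  refine Finset.sum_congr rfl fun j _ => ?_
  rw [Finset.sum_congr rfl fun (h : {h : H // i h = j}) _ => by rw [h.2], Finset.sum_const]
  rfl

omit [DecidableEq H] in
theorem prod_cnt {M : Type} [CommMonoid M] (i : H → Fin k) (u : Fin k → M) :
    ∏ h, u (i h) = ∏ j, u j ^ cnt H i j := by
  rw [← Fintype.prod_fiberwise i (fun h => u (i h))]
  refine Finset.prod_congr rfl fun j _ => ?_
  rw [Finset.prod_congr rfl fun (h : {h : H // i h = j}) _ => by rw [h.2], Finset.prod_const]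
  rfl

/-- The product of the conjugates of a linear combination of the generators. -/
theorem prod_mem (c : Fin k → ℂ) : ∏ h, ac H hR h (∑ j, c j • g j) ∈ NI H hR g := by
  classical
  have h1 : ∏ h, ac H hR h (∑ j, c j • g j) =
      ∑ i : H → Fin k, (∏ j, c j ^ cnt H i j) • mono H hR g i := by
    have h2 : ∀ h : H, ac H hR h (∑ j, c j • g j) = ∑ j, c j • ac H hR h (g j) := by
      intro h
      rw [map_sum]
      exact Finset.sum_congr rfl fun j _ => map_smul _ _ _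
    rw [Finset.prod_congr rfl fun h _ => h2 h, Finset.prod_univ_sum, Fintype.piFinset_univ]
    refine Finset.sum_congr rfl fun i _ => ?_
    rw [← prod_cnt H i c, mono, Finset.prod_smul]
  rw [h1, ← Finset.sum_fiberwise_of_maps_to (t := Finset.univ.image (cnt H (k := k)))
    (g := cnt H) (fun i _ => Finset.mem_image_of_mem _ (Finset.mem_univ i))]
  refine Ideal.sum_mem _ fun α _ => ?_
  have h3 : ∑ i ∈ Finset.univ.filter (fun i : H → Fin k => cnt H i = α),
      (∏ j, c j ^ cnt H i j) • mono H hR g i = (∏ j, c j ^ α j) • sc H hR g α := by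
    unfold sc
    rw [Finset.smul_sum]
    refine Finset.sum_congr rfl fun i hi => ?_
    rw [(Finset.mem_filter.1 hi).2]
  rw [h3, Algebra.smul_def]
  exact Ideal.mul_mem_left _ _ (Ideal.subset_span ⟨α, rfl⟩)

omit [DecidableEq H] in
theorem ge_mono {w : DivVal n X.K} (μ : H → ℤ)
    (hμ : ∀ h j, w.Ge (μ h) ((h : X.K ≃ₐ[ℂ] X.K) (g j))) (i : H → Fin k) :
    w.Ge (∑ h, μ h) (mono H hR g i : X.K) := by
  have h1 : (mono H hR g i : X.K) = ∏ h, ((ac H hR h (g (i h)) : X.R) : X.K) := by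
    unfold mono
    exact map_prod X.R.val _ _
  rw [h1]
  exact DivVal.Ge.prod _ _ _ fun h _ => hμ h (i h)

omit [DecidableEq H] in
/-- Finitely many valuations take their least value at the same linear combination. -/
theorem exists_comb {w : DivVal n X.K} (μ : H → ℤ)
    (hμ : ∀ h, ∃ j, ¬ w.Ge (μ h + 1) ((h : X.K ≃ₐ[ℂ] X.K) (g j))) :
    ∃ c : Fin k → ℂ, ∀ h : H, ¬ w.Ge (μ h + 1) ((h : X.K ≃ₐ[ℂ] X.K) ((∑ j, c j • g j : X.R) : X.K)) := by
  classical
  let V : H → Submodule ℂ (Fin k → ℂ) := fun h =>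
    { carrier := {c | w.Ge (μ h + 1) ((h : X.K ≃ₐ[ℂ] X.K) ((∑ j, c j • g j : X.R) : X.K))}
      zero_mem' := by
        have h1 : (∑ j, (0 : Fin k → ℂ) j • g j : X.R) = 0 :=
          Finset.sum_eq_zero fun j _ => by rw [Pi.zero_apply, zero_smul]
        change w.Ge _ _
        rw [h1]
        exact Or.inl (map_zero _)
      add_mem' := by
        intro a b ha hb
        have h1 : (∑ j, (a + b) j • g j : X.R) = (∑ j, a j • g j : X.R) + ∑ j, b j • g j := by
          rw [← Finset.sum_add_distrib]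
          exact Finset.sum_congr rfl fun j _ => by rw [Pi.add_apply, add_smul]
        change w.Ge _ _
        rw [h1]
        have h2 : (h : X.K ≃ₐ[ℂ] X.K) (((∑ j, a j • g j : X.R) + ∑ j, b j • g j : X.R) : X.K) =
            (h : X.K ≃ₐ[ℂ] X.K) ((∑ j, a j • g j : X.R) : X.K) +
              (h : X.K ≃ₐ[ℂ] X.K) ((∑ j, b j • g j : X.R) : X.K) := map_add _ _ _
        rw [h2]
        exact DivVal.Ge.add ha hb
      smul_mem' := by
        intro c a ha
        have h1 : (∑ j, (c • a) j • g j : X.R) = c • (∑ j, a j • g j : X.R) := by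
          rw [Finset.smul_sum]
          exact Finset.sum_congr rfl fun j _ => by rw [Pi.smul_apply, smul_eq_mul, mul_smul]
        change w.Ge _ _
        rw [h1]
        have h2 : (h : X.K ≃ₐ[ℂ] X.K) ((c • (∑ j, a j • g j : X.R) : X.R) : X.K) =
            c • (h : X.K ≃ₐ[ℂ] X.K) ((∑ j, a j • g j : X.R) : X.K) :=
          map_smul (h : X.K ≃ₐ[ℂ] X.K) c _
        rw [h2]
        exact DivVal.Ge.smul ha c }
  have hV : ∀ h, V h ≠ ⊤ := by
    intro h htop
    obtain ⟨j, hj⟩ := hμ h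
    apply hj
    have h1 : Pi.single j (1 : ℂ) ∈ V h := by rw [htop]; trivial
    have h2 : w.Ge (μ h + 1) ((h : X.K ≃ₐ[ℂ] X.K)
      ((∑ l, (Pi.single j (1 : ℂ) : Fin k → ℂ) l • g l : X.R) : X.K)) := h1
    have h3 : (∑ l, (Pi.single j (1 : ℂ) : Fin k → ℂ) l • g l : X.R) = g j := by
      rw [Finset.sum_eq_single j]
      · rw [Pi.single_eq_same, one_smul]
      · intro l _ hl
        rw [Pi.single_eq_of_ne hl, zero_smul]
      · intro hj
        exact absurd (Finset.mem_univ j) hj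
    rwa [h3] at h2
  have h4 := Subspace.biUnion_ne_univ_of_top_notMem (s := Finset.univ.image V) (by
    intro h5
    obtain ⟨h, -, h6⟩ := Finset.mem_image.1 h5
    exact hV h h6)
  obtain ⟨c, hc⟩ := (Set.ne_univ_iff_exists_notMem _).1 h4
  refine ⟨c, fun h h5 => hc ?_⟩
  exact Set.mem_iUnion₂.2 ⟨V h, Finset.mem_image_of_mem _ (Finset.mem_univ h), h5⟩

/-- **NRG**: the order of the norm ideal. -/
theorem idealOrd_NI {w : DivVal n X.K} (hw : ∀ a : X.R, 0 ≤ w.ord a)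
    (hI : Ideal.span (Set.range g) ≠ ⊥) :
    NI H hR g ≠ ⊥ ∧
    idealOrd w (NI H hR g) =
      ∑ h : H, idealOrd (MldG.comap (h : X.K ≃ₐ[ℂ] X.K) w) (Ideal.span (Set.range g)) := by
  have hw' : ∀ (h : H) (a : X.R), 0 ≤ (MldG.comap (h : X.K ≃ₐ[ℂ] X.K) w).ord a := fun h a =>
    hw (ac H hR h a)
  set μ : H → ℤ := fun h => idealOrd (MldG.comap (h : X.K ≃ₐ[ℂ] X.K) w) (Ideal.span (Set.range g))
    with hμ
  have h1 : ∀ h j, w.Ge (μ h) ((h : X.K ≃ₐ[ℂ] X.K) (g j)) := by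
    intro h j
    by_cases h0 : g j = 0
    · left
      rw [h0]
      exact map_zero _
    · right
      exact idealOrd_le (hw' h) (Ideal.subset_span ⟨j, rfl⟩) h0
  have h2 : ∀ h, ∃ j, ¬ w.Ge (μ h + 1) ((h : X.K ≃ₐ[ℂ] X.K) (g j)) := by
    intro h
    by_contra hcon
    push Not at hcon
    obtain ⟨a, ha, ha0, hk⟩ := exists_idealOrd (hw' h) hI
    have h3 : (MldG.comap (h : X.K ≃ₐ[ℂ] X.K) w).Ge (μ h + 1) (a : X.K) :=
      ge_span (hw' h) (s := Set.range g) (by
        rintro _ ⟨j, rfl⟩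
        rcases hcon j with h4 | h4
        · left
          exact (map_eq_zero _).1 h4
        · exact Or.inr h4) ha
    have h5 := h3.resolve_left (coe_ne ha0)
    rw [hk] at h5
    change μ h + 1 ≤ μ h at h5
    omega
  obtain ⟨c, hc⟩ := exists_comb H g μ h2
  set a : X.R := ∑ j, c j • g j with ha
  have ha0 : a ≠ 0 := by
    intro h0
    refine hc 1 (Or.inl ?_)
    rw [h0]
    exact map_zero _
  have haI : a ∈ Ideal.span (Set.range g) := by
    refine Ideal.sum_mem _ fun j _ => ?_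
    rw [Algebra.smul_def]
    exact Ideal.mul_mem_left _ _ (Ideal.subset_span ⟨j, rfl⟩)
  have hord : ∀ h : H, w.ord ((h : X.K ≃ₐ[ℂ] X.K) (a : X.K)) = μ h := by
    intro h
    have h3 := hc h
    have h4 : μ h ≤ w.ord ((h : X.K ≃ₐ[ℂ] X.K) (a : X.K)) := idealOrd_le (hw' h) haI ha0
    have h5 : ¬ μ h + 1 ≤ w.ord ((h : X.K ≃ₐ[ℂ] X.K) (a : X.K)) := fun h6 => h3 (Or.inr h6)
    omega
  have hne : ∏ h, ac H hR h a ≠ 0 := Finset.prod_ne_zero_iff.2 fun h _ => ac_ne H hR h ha0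
  have hprod : w.ord ((∏ h, ac H hR h a : X.R) : X.K) = ∑ h, μ h := by
    have h3 : ((∏ h, ac H hR h a : X.R) : X.K) = ∏ h : H, ((ac H hR h a : X.R) : X.K) :=
      map_prod X.R.val _ _
    rw [h3, DivVal.ord_prod w _ _ fun h _ => coe_ne (ac_ne H hR h ha0)]
    exact Finset.sum_congr rfl fun h _ => hord h
  have hmem := prod_mem H hR g c
  rw [← ha] at hmem
  refine ⟨fun h => hne ?_, idealOrd_eq hw ?_ hmem hne hprod.le⟩
  · rw [h] at hmem
    exact hmem
  · intro b hb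
    refine ge_span hw ?_ hb
    rintro _ ⟨α, rfl⟩
    have h3 : ((sc H hR g α : X.R) : X.K) =
        ∑ i ∈ Finset.univ.filter (fun i : H → Fin k => cnt H i = α), (mono H hR g i : X.K) :=
      map_sum X.R.val _ _
    rw [h3]
    exact DivVal.Ge.sum _ _ fun i _ => ge_mono H hR g μ h1 i

/-- The norm ideal is homogeneous. -/
theorem inv_NI {m : ℕ} (A : MldG.TorusAction X m) (hc : ∀ h ∈ H, Comm A h) (u : Fin k → Fin m → ℤ)
    (hu : ∀ j, g j ∈ A.gr (u j)) : A.Inv (NI H hR g) := by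
  have := A.graded
  refine ⟨Set.range (sc H hR g), ?_, rfl⟩
  rintro _ ⟨α, rfl⟩
  refine ⟨∑ j, α j • u j, sum_mem fun i hi => ?_⟩
  rw [← (Finset.mem_filter.1 hi).2, ← sum_cnt H i u]
  unfold mono
  exact SetLike.prod_mem_graded _ _ _ fun h _ => hc h h.2 (u (i h)) (g (i h)) _ (hu (i h)) rfl

end NRG

end

end LSQ
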